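import Mathlib

set_option autoImplicit false

open Set Filter Topology

namespace Pool.Agent.H362Z.Cantor

abbrev C : Type := ℕ → Bool

/-- Interleave two binary sequences. -/
def mk (v f : C) : C := fun n => if n % 2 = 0 then v (n / 2) else f (n / 2)

def ev (x : C) : C := fun n => x (2 * n)

def od (x : C) : C := fun n => x (2 * n + 1)

@[simp] lemma ev_mk (v f : C) : ev (mk v f) = v := by
  funext n
  simp [ev, mk]

@[simp] lemma od_mk (v f : C) : od (mk v f) = f := by
  funext n
  have h1 : (2 * n + 1) % 2 = 1 := by omega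
  have h2 : (2 * n + 1) / 2 = n := by omega
  simp [od, mk, h1, h2]

lemma continuous_mk : Continuous (fun p : C × C => mk p.1 p.2) := by
  refine continuous_pi fun n => ?_
  unfold mk
  split_ifs
  · exact (continuous_apply _).comp continuous_fst
  · exact (continuous_apply _).comp continuous_snd

lemma continuous_mk_right (v : C) : Continuous (mk v) :=
  continuous_mk.comp (continuous_const.prodMk continuous_id)

lemma continuous_mk_left (f : C) : Continuous (fun v => mk v f) :=
  continuous_mk.comp (continuous_id.prodMk continuous_const)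

lemma continuous_ev : Continuous ev := continuous_pi fun _ => continuous_apply _

lemma continuous_od : Continuous od := continuous_pi fun _ => continuous_apply _

lemma mk_right_injective (v : C) : Function.Injective (mk v) := fun f g h => by
  have := congrArg od h
  simpa using this

/-- The graph of a function as a point of the Cantor space. -/
def gr (G : ℕ → ℕ) : C := fun p => decide (G (Nat.unpair p).1 = (Nat.unpair p).2)

@[simp] lemma gr_pair (G : ℕ → ℕ) (n k : ℕ) : gr G (Nat.pair n k) = true ↔ G n = k := by
  simp [gr]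

/-- The characteristic function of a finite set. -/
def fin (s : Finset ℕ) : C := fun p => decide (p ∈ s)

lemma isClosed_coord (p : ℕ) (b : Bool) : IsClosed {v : C | v p = b} :=
  isClosed_eq (continuous_apply p) continuous_const

lemma isOpen_coord (p : ℕ) (b : Bool) : IsOpen {v : C | v p = b} :=
  (isOpen_discrete ({b} : Set Bool)).preimage (continuous_apply (A := fun _ : ℕ => Bool) p)

/-- A closed set that avoids all finitely supported points bounds the almost monotone functions
whose graphs it contains. -/
lemma bounded_of_isClosed {F : Set C} (hF : IsClosed F) (hQ : ∀ s, fin s ∉ F) (n : ℕ) :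
    ∃ m, ∀ G : ℕ → ℕ, (∀ n', n ≤ n' → G n ≤ G n' + 1) → gr G ∈ F → G n ≤ m := by
  by_contra hcon
  push Not at hcon
  let S : ℕ → Set C := fun j => F ∩ ({v | ∀ r k k', v (Nat.pair r k) = true →
    v (Nat.pair r k') = true → k = k'} ∩ {v | ∀ n' k, n ≤ n' → k < j → v (Nat.pair n' k) = false})
  have hcl : ∀ j, IsClosed (S j) := by
    intro j
    refine hF.inter (IsClosed.inter ?_ ?_)
    · simp only [ofPred_forall]
      refine isClosed_iInter fun r => isClosed_iInter fun k => isClosed_iInter fun k' => ?_
      by_cases hk : k = k'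
      · simp [hk]
      · convert (isClosed_coord (Nat.pair r k) false).union (isClosed_coord (Nat.pair r k') false)
          using 1
        ext v
        simp only [mem_ofPred_eq, mem_union, hk, imp_false]
        cases v (Nat.pair r k) <;> cases v (Nat.pair r k') <;> simp
    · simp only [ofPred_forall]
      refine isClosed_iInter fun n' => isClosed_iInter fun k => isClosed_iInter fun _ =>
        isClosed_iInter fun _ => isClosed_coord _ _
  have hne : ∀ j, (S j).Nonempty := by
    intro j
    obtain ⟨G, hG, hGF, hlt⟩ := hcon (j + 1)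
    refine ⟨gr G, hGF, ?_, ?_⟩
    · intro r k k' h1 h2
      rw [gr_pair] at h1 h2
      omega
    · intro n' k hn' hk
      have := hG n' hn'
      rw [← Bool.not_eq_true, gr_pair]
      omega
  have hdec : ∀ j, S (j + 1) ⊆ S j := by
    intro j v hv
    exact ⟨hv.1, hv.2.1, fun n' k h1 h2 => hv.2.2 n' k h1 (by omega)⟩
  obtain ⟨v, hv⟩ := IsCompact.nonempty_iInter_of_sequence_nonempty_isCompact_isClosed S hdec hne
    (hcl 0).isCompact hcl
  rw [mem_iInter] at hv
  have hfin : {p | v p = true}.Finite := by
    refine Set.Finite.of_finite_image (f := fun p => (Nat.unpair p).1) ?_ ?_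
    · refine (Set.finite_Iio n).subset ?_
      rintro _ ⟨p, hp, rfl⟩
      by_contra hh
      have h1 : n ≤ (Nat.unpair p).1 := by simpa using hh
      have := (hv ((Nat.unpair p).2 + 1)).2.2 _ _ h1 (Nat.lt_succ_self _)
      rw [Nat.pair_unpair] at this
      simp only [mem_ofPred_eq] at hp
      rw [hp] at this
      exact absurd this (by simp)
    · intro p hp q hq hpq
      simp only [mem_ofPred_eq] at hp hq hpq
      have := (hv 0).2.1 (Nat.unpair p).1 (Nat.unpair p).2 (Nat.unpair q).2
        (by rw [Nat.pair_unpair]; exact hp) (by rw [hpq, Nat.pair_unpair]; exact hq)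
      rw [← Nat.pair_unpair p, ← Nat.pair_unpair q, hpq, this]
  have : v = fin hfin.toFinset := by
    funext p
    simp only [fin, Finite.mem_toFinset, mem_ofPred_eq]
    cases v p <;> simp
  exact hQ _ (this ▸ (hv 0).1)

/-- The labelled function: the graph of `n ↦ 2 * H n + z n`. -/
def lab (H : ℕ → ℕ) (z : C) : ℕ → ℕ := fun n => 2 * H n + (z n).toNat

/-- A countable union of closed sets that avoids the finitely supported points bounds, modulo
finite sets, the monotone functions whose labelled graphs it contains. -/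
lemma exists_bound {F : ℕ → Set C} (hF : ∀ m, IsClosed (F m)) (hQ : ∀ m s, fin s ∉ F m) :
    ∃ h : ℕ → ℕ, ∀ (H : ℕ → ℕ) (z : C), Monotone H → gr (lab H z) ∈ ⋃ m, F m →
      ∀ᶠ n in atTop, H n ≤ h n := by
  choose g hg using fun m n => bounded_of_isClosed (hF m) (hQ m) n
  refine ⟨fun n => (Finset.range (n + 1)).sup fun m => g m n, fun H z hH hmem => ?_⟩
  obtain ⟨m, hm⟩ := mem_iUnion.1 hmem
  filter_upwards [eventually_ge_atTop m] with n hn
  have h1 := hg m n (lab H z) (fun n' hn' => by
    have := hH hn'
    have h2 : (z n).toNat ≤ 1 := Bool.toNat_le _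
    simp only [lab]
    omega) hm
  have h2 : g m n ≤ (Finset.range (n + 1)).sup fun m => g m n :=
    Finset.le_sup (f := fun m => g m n) (Finset.mem_range.2 (by omega))
  simp only [lab] at h1
  omega

/-- The set of points whose `n`-th label is `true`. -/
def D (n : ℕ) : Set C := {x | ∃ k, ev x (Nat.pair n (2 * k + 1)) = true}

lemma isOpen_D (n : ℕ) : IsOpen (D n) := by
  have : D n = ⋃ k, ev ⁻¹' {v | v (Nat.pair n (2 * k + 1)) = true} := by
    ext x; simp [D]
  rw [this]
  exact isOpen_iUnion fun k => (isOpen_coord _ _).preimage continuous_ev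

lemma mem_D (H : ℕ → ℕ) (z f : C) (n : ℕ) : mk (gr (lab H z)) f ∈ D n ↔ z n = true := by
  simp only [D, mem_ofPred_eq, ev_mk, gr_pair, lab]
  cases z n
  · simp only [Bool.toNat_false, add_zero, Bool.false_eq_true, iff_false, not_exists]
    intro k
    omega
  · simp only [Bool.toNat_true, iff_true]
    exact ⟨H n, rfl⟩

/-- An enumeration of open sets of the Cantor space that contains a basis. -/
lemma exists_enum : ∃ b : ℕ → Set C, (∀ k, IsOpen (b k)) ∧
    ∀ U : Set C, IsOpen U → ∀ x ∈ U, ∃ k, x ∈ b k ∧ b k ⊆ U := by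
  obtain ⟨b, hb⟩ := TopologicalSpace.exists_seq_basis C
  refine ⟨b, fun k => hb.isOpen ⟨k, rfl⟩, fun U hU x hx => ?_⟩
  obtain ⟨_, ⟨k, rfl⟩, h1, h2⟩ := hb.exists_subset_of_mem_open hx hU
  exact ⟨k, h1, h2⟩

noncomputable def bas : ℕ → Set C := exists_enum.choose

lemma isOpen_bas (k : ℕ) : IsOpen (bas k) := exists_enum.choose_spec.1 k

/-- Every sequence of open sets has a code. -/
lemma exists_code (U : ℕ → Set C) (hU : ∀ m, IsOpen (U m)) :
    ∃ z : C, ∀ m w, w ∈ U m ↔ ∃ k, z (Nat.pair m k) = true ∧ w ∈ bas k := by
  classical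
  refine ⟨fun p => decide (bas (Nat.unpair p).2 ⊆ U (Nat.unpair p).1), fun m w => ?_⟩
  simp only [Nat.unpair_pair, decide_eq_true_eq]
  constructor
  · intro hw
    obtain ⟨k, h1, h2⟩ := exists_enum.choose_spec.2 _ (hU m) w hw
    exact ⟨k, h2, h1⟩
  · rintro ⟨k, h1, h2⟩
    exact h1 h2

end Pool.Agent.H362Z.Cantor
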