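import Mathlib

set_option autoImplicit false

namespace Pool.Agent.H362Z.JBW

/-- `M` with the triple product `{a, b, c} = L a b c` is a JB*-triple. The operator `L a b` is the
bounded complex-linear map `c ↦ {a, b, c}`. -/
structure IsJBStarTriple (M : Type) [NormedAddCommGroup M] [NormedSpace ℂ M]
    (L : M → M → M →L[ℂ] M) : Prop where
  complete : CompleteSpace M
  continuous : Continuous fun p : M × M × M => L p.1 p.2.1 p.2.2
  add_left : ∀ a a' b, L (a + a') b = L a b + L a' b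
  smul_left : ∀ (z : ℂ) a b, L (z • a) b = z • L a b
  add_mid : ∀ a b b', L a (b + b') = L a b + L a b'
  smul_mid : ∀ (z : ℂ) a b, L a (z • b) = (starRingEnd ℂ) z • L a b
  symm : ∀ a b c, L a b c = L c b a
  jordan : ∀ a b x y, L x y * L a b = L (L x y a) b - L a (L y x b) + L a b * L x y
  hermitian : ∀ a (t : ℝ), ‖NormedSpace.exp (((t : ℂ) * Complex.I) • L a a)‖ = 1
  spectrum_nonneg : ∀ a, ∀ z ∈ spectrum ℂ (L a a), ∃ r : ℝ, 0 ≤ r ∧ z = r
  norm_cube : ∀ a, ‖L a a a‖ = ‖a‖ ^ 3

/-- `M` is a dual Banach space: it is linearly isometric to the dual of a complex Banach space. -/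
def IsDualSpace (M : Type) [NormedAddCommGroup M] [NormedSpace ℂ M] : Prop :=
  ∃ (Y : Type) (_ : NormedAddCommGroup Y) (_ : NormedSpace ℂ Y), CompleteSpace Y ∧
    Nonempty (M ≃ₗᵢ[ℂ] StrongDual ℂ Y)

/-- A JBW*-triple is a JB*-triple that is a dual Banach space. -/
def IsJBWStarTriple (M : Type) [NormedAddCommGroup M] [NormedSpace ℂ M]
    (L : M → M → M →L[ℂ] M) : Prop :=
  IsJBStarTriple M L ∧ IsDualSpace M

end Pool.Agent.H362Z.JBW
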