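import Mathlib

set_option autoImplicit false

open scoped ENNReal

namespace Pool.Agent.H362Z.WNC

variable (X : Type) [NormedAddCommGroup X] [NormedSpace ℂ X]

/-- The distance from a point of the bidual `X**` to the canonical copy of `X`. -/
noncomputable def distToX (F : WeakDual ℂ (StrongDual ℂ X)) : ℝ≥0∞ :=
  Metric.infEDist (WeakDual.toStrongDual F) (Set.range (NormedSpace.inclusionInDoubleDual ℂ X))

/-- The canonical embedding of `X` into `X**` with its weak-star topology. -/
noncomputable def toBidual (x : X) : WeakDual ℂ (StrongDual ℂ X) :=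
  StrongDual.toWeakDual (NormedSpace.inclusionInDoubleDual ℂ X x)

/-- The De Blasi measure: the infimum over weakly compact `L ⊆ X` of `sup_{a ∈ A} dist(a, L)`. -/
noncomputable def omega (A : Set X) : ℝ≥0∞ :=
  ⨅ (L : Set X) (_ : IsCompact (toWeakSpace ℂ X '' L)), ⨆ a ∈ A, Metric.infEDist a L

/-- `wk A` is the supremum of `dist(x**, X)` over the weak-star closure of `A` in `X**`. -/
noncomputable def wk (A : Set X) : ℝ≥0∞ :=
  ⨆ F ∈ closure (toBidual X '' A), distToX X F

/-- `wck A` is the supremum, over sequences in `A`, of the distance to `X` from the set of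
weak-star cluster points of the sequence in `X**`. -/
noncomputable def wck (A : Set X) : ℝ≥0∞ :=
  ⨆ (x : ℕ → X) (_ : ∀ n, x n ∈ A),
    ⨅ (F : WeakDual ℂ (StrongDual ℂ X))
      (_ : MapClusterPt F Filter.atTop (fun n => toBidual X (x n))), distToX X F

end Pool.Agent.H362Z.WNC
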