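import Mathlib
import Pool.Agent.H362Z.WNCDefs

set_option autoImplicit false

open Set Filter Topology
open scoped ENNReal

namespace Pool.Agent.H362Z.WNC

/-- Iterated limits along a fixed free ultrafilter. -/
lemma exists_tree {Y : Type} [TopologicalSpace Y] {K : Set Y} (hK : IsCompact K) (D : ℕ)
    (G : (ℕ → ℕ) → Y) (hG : ∀ s, G s ∈ K) :
    ∃ G' : ℕ → (ℕ → ℕ) → Y, (∀ j s, G' j s ∈ K) ∧ (∀ s, G' D s = G s) ∧
      ∀ j, j < D → ∀ s, Tendsto (fun n => G' (j + 1) (Function.update s j n)) (hyperfilter ℕ)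
        (𝓝 (G' j s)) := by
  classical
  induction D generalizing G with
  | zero => exact ⟨fun _ => G, fun _ => hG, fun _ => rfl, fun j hj => absurd hj (by omega)⟩
  | succ D ih =>
    have h1 : ∀ s, ∃ y ∈ K, Tendsto (fun n => G (Function.update s D n)) (hyperfilter ℕ)
        (𝓝 y) := by
      intro s
      obtain ⟨y, hy, h⟩ := hK.ultrafilter_le_nhds
        ((hyperfilter ℕ).map fun n => G (Function.update s D n))
        (le_principal_iff.2 (mem_map.2 (univ_mem' fun n => hG _)))
      exact ⟨y, hy, h⟩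
    choose G1 hG1 hG1' using h1
    obtain ⟨G2, h2, h3, h4⟩ := ih G1 hG1
    refine ⟨fun j => if j = D + 1 then G else G2 j, fun j s => ?_, fun s => by simp,
      fun j hj s => ?_⟩
    · dsimp only
      split_ifs
      · exact hG s
      · exact h2 j s
    · have hj' : j ≠ D + 1 := by omega
      simp only [hj', if_false]
      by_cases hjD : j = D
      · subst hjD
        simp only [if_true, h3]
        exact hG1' s
      · have : j + 1 ≠ D + 1 := by omega
        simp only [this, if_false]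
        exact h4 j (by omega) s

lemma exists_ge_close {g : ℕ → ℂ} {y : ℂ} (h : Tendsto g (hyperfilter ℕ) (𝓝 y)) {ε : ℝ}
    (hε : 0 < ε) (N : ℕ) : ∃ n, N ≤ n ∧ ‖g n - y‖ ≤ ε := by
  have h1 : ∀ᶠ n in (hyperfilter ℕ : Filter ℕ), N ≤ n :=
    Nat.hyperfilter_le_atTop (eventually_ge_atTop N)
  have h2 : ∀ᶠ n in (hyperfilter ℕ : Filter ℕ), dist (g n) y < ε :=
    Metric.tendsto_nhds.1 h ε hε
  obtain ⟨n, h3, h4⟩ := (h1.and h2).exists
  exact ⟨n, h3, by rw [← dist_eq_norm]; exact h4.le⟩

variable {X : Type} [NormedAddCommGroup X] [NormedSpace ℂ X]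

/-- The data of the example. -/
structure Data (X : Type) [NormedAddCommGroup X] [NormedSpace ℂ X] (k : ℕ) where
  T : Type
  δ : T → StrongDual ℂ X
  δ_le : ∀ t x, ‖δ t x‖ ≤ ‖x‖
  norming : ∀ x C, 0 ≤ C → (∀ t, ‖δ t x‖ ≤ C) → ‖x‖ ≤ C
  c : ℕ → T → ℝ
  c_nonneg : ∀ n t, 0 ≤ c n t
  c_le : ∀ n t, c n t ≤ k
  c_mono : ∀ t, Monotone fun n => c n t
  e : ℕ → ℕ → X
  δ_e : ∀ p q t, p ≤ q → δ t (e p q) = ((min 1 (c q t - c p t) : ℝ) : ℂ)
  pts : ∀ b : Finset ℕ, b.card ≤ k → ∃ t, ∀ n, c n t = ((b.filter (· < n)).card : ℝ)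

namespace Data

variable {k : ℕ} (d : Data X k)

lemma norm_δ_e {p q : ℕ} (h : p ≤ q) (t : d.T) :
    ‖d.δ t (d.e p q)‖ = min 1 (d.c q t - d.c p t) := by
  rw [d.δ_e p q t h, Complex.norm_real, Real.norm_of_nonneg]
  exact le_min zero_le_one (sub_nonneg.2 (d.c_mono t h))

lemma norm_e_le {p q : ℕ} (h : p ≤ q) : ‖d.e p q‖ ≤ 1 :=
  d.norming _ _ zero_le_one fun t => by rw [d.norm_δ_e h]; exact min_le_left _ _

lemma small (μ : StrongDual ℂ X) {ε : ℝ} (hε : 0 < ε) :
    ∃ N, ∀ p q, N ≤ p → p ≤ q → ‖μ (d.e p q)‖ ≤ ε := by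
  by_contra hcon
  push Not at hcon
  have key : ∀ m : ℕ, ∃ (x : X) (M : ℕ) (r : ℝ), μ x = r ∧ m * ε ≤ r ∧
      ∀ t, ‖d.δ t x‖ ≤ d.c M t := by
    intro m
    induction m with
    | zero => exact ⟨0, 0, 0, by simp, by simp, fun t => by simpa using d.c_nonneg 0 t⟩
    | succ m ih =>
      obtain ⟨x, M, r, h1, h2, h3⟩ := ih
      obtain ⟨p, q, hp, hq, h4⟩ := hcon M
      obtain ⟨θ, hθ, hθ'⟩ := Complex.exists_norm_eq_mul_self (μ (d.e p q))
      refine ⟨x + θ • d.e p q, q, r + ‖μ (d.e p q)‖, ?_, ?_, fun t => ?_⟩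
      · rw [map_add, map_smul, h1, smul_eq_mul, ← hθ']
        push_cast
        rfl
      · push_cast
        linarith
      · rw [map_add, map_smul]
        refine (norm_add_le _ _).trans ?_
        rw [norm_smul, hθ, one_mul, d.norm_δ_e hq]
        have h5 := d.c_mono t hp
        have h6 := min_le_right 1 (d.c q t - d.c p t)
        have h7 := h3 t
        simp only at h5
        linarith
  obtain ⟨m, hm⟩ := exists_nat_gt (‖μ‖ * k / ε)
  obtain ⟨x, M, r, h1, h2, h3⟩ := key m
  have h4 : ‖x‖ ≤ k := d.norming _ _ (Nat.cast_nonneg k) fun t => (h3 t).trans (d.c_le M t)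
  have h5 : ‖μ x‖ ≤ ‖μ‖ * k := (μ.le_opNorm x).trans (by gcongr)
  rw [h1, Complex.norm_real] at h5
  have h6 := le_abs_self r
  rw [div_lt_iff₀ hε] at hm
  rw [Real.norm_eq_abs] at h5
  linarith

/-- The functions of the example. -/
noncomputable def f (a : ℕ → ℕ) : X := ∑ i ∈ Finset.range k, d.e (a i) (a (i + 1))

/-- The set of the example. -/
def A : Set X := d.f '' {a | ∀ i < k, a i ≤ a (i + 1)}

lemma isBounded_A : Bornology.IsBounded d.A := by
  refine (Metric.isBounded_closedBall (x := (0 : X)) (r := k)).subset ?_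
  rintro _ ⟨a, ha, rfl⟩
  rw [mem_closedBall_zero_iff]
  refine (norm_sum_le _ _).trans ?_
  refine (Finset.sum_le_sum fun i hi => d.norm_e_le (ha i (Finset.mem_range.1 hi))).trans ?_
  simp

lemma wk_le : wk X d.A ≤ 1 := by
  classical
  refine iSup₂_le fun F hF => ?_
  let S := {a : ℕ → ℕ | ∀ i < k, a i ≤ a (i + 1)}
  have hne : (comap (fun a : S => toBidual X (d.f a)) (𝓝 F)).NeBot := by
    rw [comap_neBot_iff]
    intro U hU
    obtain ⟨_, hy, _, ⟨a, ha, rfl⟩, rfl⟩ := mem_closure_iff_nhds.1 hF U hU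
    exact ⟨⟨a, ha⟩, hy⟩
  let U := Ultrafilter.of (comap (fun a : S => toBidual X (d.f a)) (𝓝 F))
  have hU : Tendsto (fun a : S => toBidual X (d.f a)) U (𝓝 F) :=
    tendsto_iff_comap.2 (Ultrafilter.of_le _)
  let P : ℕ → Prop := fun i => Tendsto (fun a : S => a.1 i) U atTop
  have hfix : ∀ i, ∃ n, ¬ P i → ∀ᶠ a : S in U, a.1 i = n := by
    intro i
    by_cases h : P i
    · exact ⟨0, fun h' => absurd h h'⟩
    · simp only [P, tendsto_atTop, not_forall] at h
      obtain ⟨N, hN⟩ := h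
      have h1 : ∀ᶠ a : S in U, a.1 i ∈ Finset.range N := by
        filter_upwards [Ultrafilter.eventually_not.2 hN] with a ha
        exact Finset.mem_range.2 (not_le.1 ha)
      have h2 : ∀ᶠ a : S in U, ∃ n ∈ (Finset.range N : Set ℕ), a.1 i = n :=
        h1.mono fun a ha => ⟨_, ha, rfl⟩
      obtain ⟨n, -, hn⟩ := (Ultrafilter.eventually_exists_mem_iff (Finset.finite_toSet _)).1 h2
      exact ⟨n, fun _ => hn⟩
  choose n hn using hfix
  have hex : ∃ i, P i ∨ k < i := ⟨k + 1, Or.inr (by omega)⟩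
  let j := Nat.find hex
  have hlt : ∀ i < j, ¬ P i := fun i hi h => Nat.find_min hex hi (Or.inl h)
  have hge : ∀ i, j ≤ i → i ≤ k → P i := by
    intro i hi
    induction i, hi using Nat.le_induction with
    | base =>
      intro h
      exact (Nat.find_spec hex).resolve_right (by omega)
    | succ i _ ih =>
      intro h
      exact tendsto_atTop_mono (fun a : S => a.2 i (by omega)) (ih (by omega))
  let g : X := ∑ i ∈ Finset.range k, if i + 1 < j then d.e (n i) (n (i + 1)) else 0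
  have hbound : ∀ μ : StrongDual ℂ X, ‖F μ - μ g‖ ≤ ‖μ‖ := by
    intro μ
    have hlim : Tendsto (fun a : S => μ (d.f a) - μ g) U (𝓝 (F μ - μ g)) :=
      (((WeakDual.eval_continuous μ).tendsto F).comp hU).sub_const _
    refine le_of_forall_pos_le_add fun ε hε => ?_
    have hε' : 0 < ε / (k + 1) := by positivity
    have hterm : ∀ i ∈ Finset.range k, ∀ᶠ a : S in U,
        ‖μ (d.e (a.1 i) (a.1 (i + 1))) - μ (if i + 1 < j then d.e (n i) (n (i + 1)) else 0)‖ ≤
          (if i + 1 = j then ‖μ‖ else 0) + ε / (k + 1) := by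
      intro i hi
      have hik := Finset.mem_range.1 hi
      rcases lt_trichotomy (i + 1) j with h | h | h
      · filter_upwards [hn i (hlt i (by omega)), hn (i + 1) (hlt _ h)] with a h1 h2
        rw [if_pos h, h1, h2, sub_self, norm_zero, if_neg h.ne]
        linarith
      · refine Eventually.of_forall fun a => ?_
        rw [if_neg (by omega), if_pos h, map_zero, sub_zero]
        have h1 := μ.le_opNorm (d.e (a.1 i) (a.1 (i + 1)))
        have h2 := d.norm_e_le (a.2 i hik)
        have h3 : ‖μ‖ * ‖d.e (a.1 i) (a.1 (i + 1))‖ ≤ ‖μ‖ * 1 := by gcongr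
        linarith
      · obtain ⟨N, hN⟩ := d.small μ hε'
        filter_upwards [(hge i (by omega) hik.le).eventually (eventually_ge_atTop N)] with a ha
        rw [if_neg (by omega), if_neg (by omega), map_zero, sub_zero, zero_add]
        exact hN _ _ ha (a.2 i hik)
    refine le_of_tendsto hlim.norm ?_
    filter_upwards [(Finset.eventually_all _).2 hterm] with a ha
    rw [f, map_sum, map_sum, ← Finset.sum_sub_distrib]
    refine (norm_sum_le _ _).trans ((Finset.sum_le_sum ha).trans ?_)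
    rw [Finset.sum_add_distrib]
    refine add_le_add ?_ ?_
    · rcases Nat.eq_zero_or_pos j with h | h
      · have : ∀ i, i + 1 ≠ j := fun i => by omega
        simp [this]
      · have : ∀ i, i + 1 = j ↔ i = j - 1 := fun i => by omega
        simp only [this, Finset.sum_ite_eq']
        split_ifs
        · exact le_rfl
        · exact norm_nonneg _
    · rw [Finset.sum_const, Finset.card_range, nsmul_eq_mul, ← mul_div_assoc,
        div_le_iff₀ (by positivity)]
      nlinarith
  refine (Metric.infEDist_le_edist_of_mem (mem_range_self g)).trans ?_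
  rw [edist_dist, dist_eq_norm, ENNReal.ofReal_le_one]
  refine ContinuousLinearMap.opNorm_le_bound _ zero_le_one fun μ => ?_
  rw [one_mul]
  exact hbound μ

lemma le_of_approx {L : Set X} (hL : IsCompact (toWeakSpace ℂ X '' L)) {r : ℝ}
    (hr : ∀ a : ℕ → ℕ, (∀ i < k, a i ≤ a (i + 1)) → ∃ y ∈ L, ‖d.f a - y‖ ≤ r) :
    (k : ℝ) ≤ 2 * r := by
  classical
  have hr' : ∀ a : ℕ → ℕ, ∃ y ∈ L, (∀ i < k, a i ≤ a (i + 1)) → ‖d.f a - y‖ ≤ r := by
    intro a
    by_cases h : ∀ i < k, a i ≤ a (i + 1)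
    · obtain ⟨y, h1, h2⟩ := hr a h
      exact ⟨y, h1, fun _ => h2⟩
    · obtain ⟨y, h1, -⟩ := hr (fun _ => 0) (fun _ _ => le_rfl)
      exact ⟨y, h1, fun h' => absurd h' h⟩
  choose y hyL hy using hr'
  obtain ⟨ψ, -, hψ1, hψ2⟩ := exists_tree hL (k + 1) (fun a => toWeakSpace ℂ X (y a))
    (fun a => ⟨y a, hyL a, rfl⟩)
  have hcard : ∀ u : ℕ → ℕ, ((Finset.range k).image u).card ≤ k := fun u =>
    Finset.card_image_le.trans (by simp)
  choose t ht using fun u : ℕ → ℕ => d.pts _ (hcard u)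
  obtain ⟨Φ, -, hΦ1, hΦ2⟩ := exists_tree (WeakDual.isCompact_closedBall (0 : StrongDual ℂ X) 1) k
    (fun u => StrongDual.toWeakDual (d.δ (t u))) (fun u => by
      simp only [mem_preimage, StrongDual.toStrongDual_toWeakDual, mem_closedBall_zero_iff]
      exact ContinuousLinearMap.opNorm_le_bound _ zero_le_one fun x => by
        rw [one_mul]; exact d.δ_le _ _)
  let Ψ : ℕ → (ℕ → ℕ) → ℕ → (ℕ → ℕ) → ℂ := fun j s l u =>
    Φ l u ((toWeakSpace ℂ X).symm (ψ j s))
  have stepA : ∀ j < k + 1, ∀ s l u, Tendsto (fun n => Ψ (j + 1) (Function.update s j n) l u)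
      (hyperfilter ℕ) (𝓝 (Ψ j s l u)) := by
    intro j hj s l u
    have hc : Continuous fun x : WeakSpace ℂ X => Φ l u ((toWeakSpace ℂ X).symm x) :=
      WeakBilin.eval_continuous (topDualPairing ℂ X).flip (WeakDual.toStrongDual (Φ l u))
    exact (hc.tendsto _).comp (hψ2 j hj s)
  have stepB : ∀ l < k, ∀ j s u, Tendsto (fun n => Ψ j s (l + 1) (Function.update u l n))
      (hyperfilter ℕ) (𝓝 (Ψ j s l u)) := by
    intro l hl j s u
    exact ((WeakDual.eval_continuous _).tendsto _).comp (hΦ2 l hl u)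
  have hfull : ∀ s u, (∀ i < k, s i ≤ s (i + 1)) →
      ‖d.δ (t u) (d.f s) - Ψ (k + 1) s k u‖ ≤ r := by
    intro s u hs
    have : Ψ (k + 1) s k u = d.δ (t u) (y s) := by
      simp only [Ψ, hψ1, hΦ1]
      rfl
    rw [this, ← map_sub]
    exact (d.δ_le _ _).trans (hy s hs)
  refine le_of_forall_pos_le_add fun ε0 hε0 => ?_
  let ε := ε0 / (4 * k + 2)
  have hε : 0 < ε := by positivity
  let z := Ψ 0 (fun _ => 0) 0 (fun _ => 0)
  have walk1 : ∀ j ≤ k + 1, ∃ s : ℕ → ℕ, (∀ i, i + 1 < j → s i ≤ s (i + 1)) ∧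
      ‖Ψ j s 0 (fun _ => 0) - z‖ ≤ j * ε := by
    intro j
    induction j with
    | zero => exact fun _ => ⟨fun _ => 0, fun _ _ => le_rfl, by simp [z]⟩
    | succ j ih =>
      intro hj
      obtain ⟨s, h1, h2⟩ := ih (by omega)
      obtain ⟨n, h3, h4⟩ := exists_ge_close (stepA j (by omega) s 0 fun _ => 0) hε (s (j - 1))
      refine ⟨Function.update s j n, fun i hi => ?_, ?_⟩
      · rw [Function.update_of_ne (by omega)]
        by_cases hij : i + 1 = j
        · rw [hij, Function.update_self]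
          have : i = j - 1 := by omega
          rw [this]
          exact h3
        · rw [Function.update_of_ne hij]
          exact h1 i (by omega)
      · have := norm_sub_le_norm_sub_add_norm_sub (Ψ (j + 1) (Function.update s j n) 0 fun _ => 0)
          (Ψ j s 0 fun _ => 0) z
        push_cast
        linarith
  obtain ⟨s1, hs1, hs1'⟩ := walk1 (k + 1) le_rfl
  have walk1' : ∀ l ≤ k, ∃ u : ℕ → ℕ, (∀ i < l, s1 k ≤ u i) ∧
      ‖Ψ (k + 1) s1 l u - Ψ (k + 1) s1 0 (fun _ => 0)‖ ≤ l * ε := by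
    intro l
    induction l with
    | zero => exact fun _ => ⟨fun _ => 0, fun _ hi => absurd hi (by omega), by simp⟩
    | succ l ih =>
      intro hl
      obtain ⟨u, h1, h2⟩ := ih (by omega)
      obtain ⟨n, h3, h4⟩ := exists_ge_close (stepB l (by omega) (k + 1) s1 u) hε (s1 k)
      refine ⟨Function.update u l n, fun i hi => ?_, ?_⟩
      · by_cases hil : i = l
        · rw [hil, Function.update_self]
          exact h3
        · rw [Function.update_of_ne hil]
          exact h1 i (by omega)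
      · have := norm_sub_le_norm_sub_add_norm_sub (Ψ (k + 1) s1 (l + 1) (Function.update u l n))
          (Ψ (k + 1) s1 l u) (Ψ (k + 1) s1 0 (fun _ => 0))
        push_cast
        linarith
  obtain ⟨u1, hu1, hu1'⟩ := walk1' k le_rfl
  have walk2 : ∀ j ≤ k, ∃ s u : ℕ → ℕ, (∀ i < j, s i ≤ u i ∧ u i < s (i + 1)) ∧
      ‖Ψ (j + 1) s j u - z‖ ≤ (2 * j + 1) * ε := by
    intro j
    induction j with
    | zero =>
      intro _
      obtain ⟨n, -, h4⟩ := exists_ge_close (stepA 0 (by omega) (fun _ => 0) 0 fun _ => 0) hε 0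
      exact ⟨_, fun _ => 0, fun _ hi => absurd hi (by omega), by simpa using h4⟩
    | succ j ih =>
      intro hj
      obtain ⟨s, u, h1, h2⟩ := ih (by omega)
      obtain ⟨m, h3, h4⟩ := exists_ge_close (stepB j (by omega) (j + 1) s u) hε (s j)
      obtain ⟨n, h5, h6⟩ := exists_ge_close
        (stepA (j + 1) (by omega) s (j + 1) (Function.update u j m)) hε (m + 1)
      refine ⟨Function.update s (j + 1) n, Function.update u j m, fun i hi => ?_, ?_⟩
      · rw [Function.update_of_ne (by omega : i ≠ j + 1)]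
        by_cases hij : i = j
        · rw [hij, Function.update_self, Function.update_self]
          exact ⟨h3, h5⟩
        · rw [Function.update_of_ne hij, Function.update_of_ne (by omega : i + 1 ≠ j + 1)]
          exact h1 i (by omega)
      · have h7 := norm_sub_le_norm_sub_add_norm_sub
          (Ψ (j + 1 + 1) (Function.update s (j + 1) n) (j + 1) (Function.update u j m))
          (Ψ (j + 1) s (j + 1) (Function.update u j m)) z
        have h8 := norm_sub_le_norm_sub_add_norm_sub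
          (Ψ (j + 1) s (j + 1) (Function.update u j m)) (Ψ (j + 1) s j u) z
        push_cast
        linarith
  obtain ⟨s2, u2, h2, h2'⟩ := walk2 k le_rfl
  have hs1m : ∀ i < k, s1 i ≤ s1 (i + 1) := fun i hi => hs1 i (by omega)
  have hs2m : ∀ i < k, s2 i ≤ s2 (i + 1) := fun i hi => by
    have := h2 i hi
    omega
  have hs1k : ∀ i ≤ k, s1 i ≤ s1 k := by
    intro i hi
    induction hi using Nat.decreasingInduction with
    | self => exact le_rfl
    | of_succ i hi ih => exact (hs1m i hi).trans ih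
  have v1 : d.δ (t u1) (d.f s1) = 0 := by
    have hc : ∀ i ≤ k, d.c (s1 i) (t u1) = 0 := by
      intro i hi
      rw [ht, Finset.filter_eq_empty_iff.2]
      · simp
      · intro x hx
        obtain ⟨l, hl, rfl⟩ := Finset.mem_image.1 hx
        have := hu1 l (Finset.mem_range.1 hl)
        have := hs1k i hi
        omega
    rw [f, map_sum]
    refine Finset.sum_eq_zero fun i hi => ?_
    have hi' := Finset.mem_range.1 hi
    rw [d.δ_e _ _ _ (hs1m i hi'), hc i hi'.le, hc (i + 1) hi']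
    simp
  have v2 : d.δ (t u2) (d.f s2) = k := by
    rw [f, map_sum]
    have : ∀ i ∈ Finset.range k, d.δ (t u2) (d.e (s2 i) (s2 (i + 1))) = 1 := by
      intro i hi
      have hi' := Finset.mem_range.1 hi
      rw [d.δ_e _ _ _ (hs2m i hi'), min_eq_left, Complex.ofReal_one]
      rw [ht, ht, le_sub_iff_add_le, add_comm]
      have hlt : (((Finset.range k).image u2).filter (· < s2 i)).card <
          (((Finset.range k).image u2).filter (· < s2 (i + 1))).card := by
        refine Finset.card_lt_card ⟨fun x hx => ?_, fun hh => ?_⟩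
        · rw [Finset.mem_filter] at hx ⊢
          exact ⟨hx.1, lt_of_lt_of_le hx.2 (hs2m i hi')⟩
        · have := hh (Finset.mem_filter.2 ⟨Finset.mem_image_of_mem u2 hi, (h2 i hi').2⟩)
          have h3 := (Finset.mem_filter.1 this).2
          have h4 := (h2 i hi').1
          omega
      exact_mod_cast hlt
    rw [Finset.sum_congr rfl this]
    simp
  have e1 := hfull s1 u1 hs1m
  have e2 := hfull s2 u2 hs2m
  rw [v1, zero_sub, norm_neg] at e1
  rw [v2] at e2
  have e3 : (k : ℂ) = (k - Ψ (k + 1) s2 k u2) + (Ψ (k + 1) s2 k u2 - z) -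
      (Ψ (k + 1) s1 0 (fun _ => 0) - z) - (Ψ (k + 1) s1 k u1 - Ψ (k + 1) s1 0 (fun _ => 0)) +
      Ψ (k + 1) s1 k u1 := by ring
  have e4 : ‖(k : ℂ)‖ ≤ r + (2 * k + 1) * ε + (k + 1 : ℕ) * ε + k * ε + r := by
    rw [e3]
    refine (norm_add_le _ _).trans (add_le_add ((norm_sub_le _ _).trans (add_le_add
      ((norm_sub_le _ _).trans (add_le_add ((norm_add_le _ _).trans (add_le_add e2 h2')) hs1'))
      hu1')) e1)
  rw [Complex.norm_natCast] at e4
  have e5 : (4 * k + 2) * ε = ε0 := by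
    simp only [ε]
    field_simp
  push_cast at e4
  linarith

lemma le_omega : ENNReal.ofReal (k / 2) ≤ omega X d.A := by
  refine le_iInf₂ fun L hL => ?_
  by_contra hcon
  obtain ⟨r, hr0, h1, h2⟩ := ENNReal.lt_iff_exists_real_btwn.1 (not_le.1 hcon)
  have h3 : (k : ℝ) ≤ 2 * r := d.le_of_approx hL fun a ha => by
    have h4 : Metric.infEDist (d.f a) L < ENNReal.ofReal r :=
      lt_of_le_of_lt (le_iSup₂_of_le (f := fun a (_ : a ∈ d.A) => Metric.infEDist a L)
        (d.f a) ⟨a, ha, rfl⟩ le_rfl) h1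
    obtain ⟨y, hy, h5⟩ := Metric.infEDist_lt_iff.1 h4
    rw [edist_dist, dist_eq_norm, ENNReal.ofReal_lt_ofReal_iff_of_nonneg (norm_nonneg _)] at h5
    exact ⟨y, hy, h5.le⟩
  rw [ENNReal.ofReal_lt_ofReal_iff_of_nonneg hr0] at h2
  linarith

end Data

lemma wck_le_wk {A : Set X} (hA : Bornology.IsBounded A) : wck X A ≤ wk X A := by
  refine iSup₂_le fun x hx => ?_
  obtain ⟨R, hR⟩ := hA.subset_closedBall 0
  have hK := WeakDual.isCompact_closedBall (0 : StrongDual ℂ (StrongDual ℂ X)) R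
  obtain ⟨F, -, hF⟩ := hK.exists_mapClusterPt (f := atTop) (u := fun n => toBidual X (x n))
    (le_principal_iff.2 (mem_map.2 (univ_mem' fun n => by
      simp only [toBidual, mem_preimage, StrongDual.toStrongDual_toWeakDual,
        mem_closedBall_zero_iff]
      exact (NormedSpace.double_dual_bound ℂ X (x n)).trans
        (mem_closedBall_zero_iff.1 (hR (hx n))))))
  refine iInf₂_le_of_le F hF (le_iSup₂_of_le (f := fun F (_ : F ∈ closure (toBidual X '' A)) =>
    distToX X F) F ?_ le_rfl)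
  exact mem_closure_iff_clusterPt.2 (ClusterPt.mono hF
    (le_principal_iff.2 (mem_map.2 (univ_mem' fun n => ⟨x n, hx n, rfl⟩))))

/-- If the data exist for every `k`, the measures are not equivalent. -/
theorem not_equiv (h : ∀ k, Nonempty (Data X k)) (c : NNReal) :
    ∃ A : Set X, Bornology.IsBounded A ∧ A.Nonempty ∧
      c * wk X A < omega X A ∧ c * wck X A < omega X A := by
  obtain ⟨k, hk⟩ := exists_nat_gt (2 * (c : ℝ))
  obtain ⟨d⟩ := h k
  have h1 : (c : ℝ≥0∞) * wk X d.A < omega X d.A := by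
    refine lt_of_le_of_lt (mul_le_mul_right d.wk_le _) (lt_of_lt_of_le ?_ d.le_omega)
    rw [mul_one, ← ENNReal.ofReal_coe_nnreal,
      ENNReal.ofReal_lt_ofReal_iff_of_nonneg c.coe_nonneg]
    linarith
  exact ⟨d.A, d.isBounded_A, ⟨_, fun _ => 0, fun _ _ => le_rfl, rfl⟩, h1,
    lt_of_le_of_lt (mul_le_mul_right (wck_le_wk d.isBounded_A) _) h1⟩

end Pool.Agent.H362Z.WNC
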