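import Mathlib
import Pool.Agent.H362Z.WNCCore
import Pool.Agent.H362Z.JBWDefs

set_option autoImplicit false

open Set Filter Topology
open scoped ENNReal

namespace Pool.Agent.H362Z.JBW

open Pool.Agent.H362Z.WNC

section comm

variable (M : Type) [CommCStarAlgebra M] [Nontrivial M]

/-- The left regular representation. -/
noncomputable def lreg : M →ₐ[ℂ] (M →L[ℂ] M) where
  toFun x := ContinuousLinearMap.mul ℂ M x
  map_one' := by ext; simp
  map_mul' x y := by ext; simp [mul_assoc]
  map_zero' := by ext; simp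
  map_add' x y := by ext; simp
  commutes' r := by ext; simp [Algebra.algebraMap_eq_smul_one]

lemma isJBStarTriple_comm :
    IsJBStarTriple M (fun a b => ContinuousLinearMap.mul ℂ M (a * star b)) where
  complete := inferInstance
  continuous := by
    simp only [ContinuousLinearMap.mul_apply']
    fun_prop
  add_left a a' b := by ext; simp [add_mul]
  smul_left z a b := by ext; simp
  add_mid a b b' := by ext; simp [mul_add]
  smul_mid z a b := by ext; simp
  symm a b c := by simp only [ContinuousLinearMap.mul_apply']; ring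
  jordan a b x y := by
    ext v
    simp only [ContinuousLinearMap.mul_apply', mul_apply_eq_comp,
      add_apply, sub_apply, star_mul', star_star]
    ring
  hermitian a t := by
    let +nondep : NormedAlgebra ℚ M := .restrictScalars ℚ ℂ M
    let +nondep : NormedAlgebra ℚ (M →L[ℂ] M) := .restrictScalars ℚ ℂ _
    have hsa : IsSelfAdjoint (a * star a) := IsSelfAdjoint.mul_star_self a
    have hsk : ((t : ℂ) * Complex.I) • (a * star a) ∈ skewAdjoint M := by
      refine hsa.smul_mem_skewAdjoint ?_
      rw [skewAdjoint.mem_iff]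
      simp
    have hu := NormedSpace.exp_mem_unitary_of_mem_skewAdjoint hsk
    have h1 := NormedSpace.map_exp (lreg M) (ContinuousLinearMap.mul ℂ M).continuous
      (((t : ℂ) * Complex.I) • (a * star a))
    rw [map_smul] at h1
    have h2 : ‖lreg M (NormedSpace.exp (((t : ℂ) * Complex.I) • (a * star a)))‖ = 1 := by
      show ‖ContinuousLinearMap.mul ℂ M _‖ = 1
      rw [ContinuousLinearMap.opNorm_mul_apply]
      exact CStarRing.norm_of_mem_unitary hu
    rw [h1] at h2
    exact h2
  spectrum_nonneg a z hz := by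
    have h1 : z ∈ spectrum ℂ (a * star a) := AlgHom.spectrum_apply_subset (lreg M) _ hz
    have hsa : IsSelfAdjoint (a * star a) := IsSelfAdjoint.mul_star_self a
    have h2 := hsa.mem_spectrum_eq_re h1
    refine ⟨z.re, ?_, h2⟩
    refine spectrum_star_mul_self_nonneg (b := a) _ ?_
    rw [mul_comm, ← spectrum.algebraMap_mem_iff ℂ]
    rw [h2] at h1
    exact h1
  norm_cube a := by
    simp only [ContinuousLinearMap.mul_apply']
    refine le_antisymm ?_ ?_
    · refine (norm_mul_le _ _).trans ?_
      rw [CStarRing.norm_self_mul_star]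
      exact le_of_eq (by ring)
    · rcases eq_or_ne a 0 with rfl | ha
      · simp
      have hpos : 0 < ‖a‖ := norm_pos_iff.2 ha
      have h1 : ‖(a * star a) * (a * star a)‖ = ‖a‖ ^ 4 := by
        rw [(IsSelfAdjoint.mul_star_self a).norm_mul_self, CStarRing.norm_self_mul_star]
        ring
      have h2 : ‖(a * star a) * (a * star a)‖ ≤ ‖a * star a * a‖ * ‖a‖ := by
        rw [← mul_assoc]
        refine (norm_mul_le _ _).trans ?_
        rw [norm_star]
      rw [h1] at h2
      refine le_of_mul_le_mul_right ?_ hpos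
      calc ‖a‖ ^ 3 * ‖a‖ = ‖a‖ ^ 4 := by ring
        _ ≤ _ := h2

end comm

abbrev Linf : Type := lp (fun _ : ℕ => ℂ) ∞

abbrev L1 : Type := lp (fun _ : ℕ => ℂ) 1

noncomputable def pairing : Linf →L[ℂ] StrongDual ℂ L1 :=
  lp.dualPairing ∞ 1 (fun _ : ℕ => ContinuousLinearMap.mul ℂ ℂ) (K := 1)
    (fun _ => ContinuousLinearMap.opNorm_mul_le ℂ ℂ)

lemma pairing_single (x : Linf) (i : ℕ) : pairing x (lp.single 1 i (1 : ℂ)) = x i := by
  show ∑' j, ContinuousLinearMap.mul ℂ ℂ (x j) ((lp.single 1 i (1 : ℂ) : L1) j) = x i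
  rw [tsum_eq_single i]
  · simp
  · intro j hj
    simp [Pi.single_eq_of_ne hj]

lemma norm_pairing (x : Linf) : ‖pairing x‖ = ‖x‖ := by
  refine le_antisymm ?_ ?_
  · refine (pairing.le_opNorm x).trans ?_
    have : ‖pairing‖ ≤ (1 : NNReal) := lp.norm_dualPairing _ _
    simp only [NNReal.coe_one] at this
    exact mul_le_of_le_one_left (norm_nonneg _) this
  · refine lp.norm_le_of_forall_le (norm_nonneg _) fun i => ?_
    rw [← pairing_single]
    refine ((pairing x).le_opNorm _).trans ?_
    rw [lp.norm_single (by simp)]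
    simp

lemma isDualSpace_Linf : IsDualSpace Linf := by
  refine ⟨L1, inferInstance, inferInstance, inferInstance, ⟨LinearIsometryEquiv.ofSurjective
    ⟨pairing.toLinearMap, norm_pairing⟩ fun φ => ?_⟩⟩
  let x : Linf := ⟨fun i => φ (lp.single 1 i (1 : ℂ)), memℓp_infty ⟨‖φ‖, by
    rintro _ ⟨i, rfl⟩
    refine (φ.le_opNorm _).trans ?_
    rw [lp.norm_single (by simp)]
    simp⟩⟩
  refine ⟨x, ?_⟩
  ext1 f
  have h1 := lp.hasSum_single (p := 1) (by simp) f
  have h2 : ∀ (ψ : StrongDual ℂ L1) (i : ℕ),
      ψ (lp.single 1 i (f i)) = f i * ψ (lp.single 1 i (1 : ℂ)) := by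
    intro ψ i
    rw [← smul_eq_mul, ← map_smul, ← lp.single_smul]
    simp
  have h3 := (pairing x).hasSum h1
  have h4 := φ.hasSum h1
  simp only [h2, pairing_single] at h3 h4
  exact h3.unique h4

lemma data_Linf (k : ℕ) : Nonempty (Data Linf k) := by
  classical
  obtain ⟨q, hq⟩ := exists_surjective_nat (Finset ℕ)
  let c : ℕ → ℕ → ℝ := fun n t => min (((q t).filter (· < n)).card : ℝ) k
  have c_nonneg : ∀ n t, 0 ≤ c n t := fun n t => le_min (Nat.cast_nonneg _) (Nat.cast_nonneg k)
  have c_le : ∀ n t, c n t ≤ k := fun n t => min_le_right _ _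
  refine ⟨{ T := ℕ
            δ := fun t => lp.evalCLM ℂ (fun _ : ℕ => ℂ) ∞ t
            δ_le := fun t f => lp.norm_apply_le_norm (by simp) f t
            norming := fun f C hC h => lp.norm_le_of_forall_le hC h
            c := c
            c_nonneg := c_nonneg
            c_le := c_le
            c_mono := fun t a b hab => min_le_min_right _ ?_
            e := fun p p' => ⟨fun t => ((min 1 (c p' t - c p t) : ℝ) : ℂ),
              memℓp_infty ⟨k + 1, ?_⟩⟩
            δ_e := fun p p' t _ => rfl
            pts := fun b hb => ?_ }⟩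
  · exact_mod_cast Finset.card_le_card fun x hx => by
      rw [Finset.mem_filter] at hx ⊢
      exact ⟨hx.1, lt_of_lt_of_le hx.2 hab⟩
  · rintro _ ⟨t, rfl⟩
    simp only [Complex.norm_real, Real.norm_eq_abs, abs_le]
    have h1 := c_nonneg p' t
    have h2 := c_le p t
    have h3 : (0 : ℝ) ≤ k := Nat.cast_nonneg k
    exact ⟨le_min (by linarith) (by linarith), (min_le_left _ _).trans (by linarith)⟩
  · obtain ⟨t, rfl⟩ := hq b
    refine ⟨t, fun n => min_eq_left ?_⟩
    exact_mod_cast (Finset.card_filter_le _ _).trans hb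

lemma isJBStarTriple_Linf :
    IsJBStarTriple Linf (fun a b => ContinuousLinearMap.mul ℂ Linf (a * star b)) := by
  have : Nontrivial Linf := NormOneClass.nontrivial
  exact isJBStarTriple_comm Linf

end Pool.Agent.H362Z.JBW
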