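import Mathlib

set_option autoImplicit false

open MeasureTheory Set Cardinal Filter Topology
open scoped ENNReal

namespace Pool.Agent.H362Z.PMUN

/-- Luzin type construction under the continuum hypothesis. -/
lemma luzin (CH : (𝔠 : Cardinal.{0}) = ℵ₁) {X : Type} [MeasurableSpace X]
    [MeasurableSpace.CountablyGenerated X] (S : Set X → Prop) (hS : ∀ F, S F → MeasurableSet F)
    (h0 : S ∅) (hcov : ∀ G : Set (Set X), G.Countable → (∀ F ∈ G, S F) → ∃ x, ∀ F ∈ G, x ∉ F) :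
    ∃ A : Set X, (∀ F, S F → (A ∩ F).Countable) ∧ ∀ F, S F → ¬ A ⊆ F := by
  classical
  let ι : Type := (Cardinal.aleph 1).ord.ToType
  have hι : #ι = ℵ₁ := mk_ord_toType _
  have hIio : ∀ i : ι, (Set.Iio i).Countable := by
    intro i
    have h1 : #(Set.Iio i) < #ι := mk_Iio_lt i (by simp [ι])
    rw [hι] at h1
    exact le_aleph0_iff_set_countable.mp (lt_aleph_one_iff.mp h1)
  have hIic : ∀ i : ι, (Set.Iic i).Countable := by
    intro i
    have : Set.Iic i = insert i (Set.Iio i) := by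
      ext j; simp [le_iff_eq_or_lt]
    rw [this]
    exact (hIio i).insert i
  let N : Type := {F : Set X // S F}
  have hN : #N ≤ #ι := by
    rw [hι, ← CH]
    have h1 : #{t : Set X | MeasurableSet t} ≤ 𝔠 := by
      have h2 := MeasurableSpace.cardinal_measurableSet_le_continuum
        (s := MeasurableSpace.countableGeneratingSet X)
        ((MeasurableSpace.countable_countableGeneratingSet (α := X)).le_aleph0.trans
          aleph0_le_continuum)
      rw [MeasurableSpace.generateFrom_countableGeneratingSet] at h2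
      exact h2
    refine le_trans ?_ h1
    exact Cardinal.mk_le_of_injective
      (f := fun F : N => (⟨F.1, hS _ F.2⟩ : {t : Set X | MeasurableSet t}))
      (fun a b h => by
        have := congrArg Subtype.val h
        exact Subtype.ext this)
  have hne : Nonempty N := ⟨⟨∅, h0⟩⟩
  obtain ⟨g⟩ := Cardinal.le_def _ _ |>.mp hN
  let f : ι → N := Function.invFun g
  have hf : Function.Surjective f := Function.invFun_surjective g.injective
  have hex : ∀ i : ι, ∃ x : X, ∀ j ≤ i, x ∉ (f j).1 := by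
    intro i
    obtain ⟨x, hx⟩ := hcov ((fun j => (f j).1) '' Set.Iic i) ((hIic i).image _) (by
      rintro _ ⟨j, -, rfl⟩
      exact (f j).2)
    exact ⟨x, fun j hj => hx _ ⟨j, hj, rfl⟩⟩
  choose a ha using hex
  refine ⟨Set.range a, ?_, ?_⟩
  · intro F hF
    obtain ⟨j, hj⟩ := hf ⟨F, hF⟩
    have hsub : Set.range a ∩ F ⊆ a '' (Set.Iio j) := by
      rintro _ ⟨⟨i, rfl⟩, hi⟩
      refine ⟨i, ?_, rfl⟩
      by_contra hc
      apply ha i j (not_lt.mp hc)
      rw [hj]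
      exact hi
    exact ((hIio j).image a).mono hsub
  · intro F hF hsub
    obtain ⟨j, hj⟩ := hf ⟨F, hF⟩
    apply ha j j le_rfl
    rw [hj]
    exact hsub ⟨j, rfl⟩

/-- A null set lies in a null intersection of a sequence of open sets. -/
lemma exists_open_seq (ν : Measure ℝ) [IsFiniteMeasure ν] {D : Set ℝ} (hD : ν D = 0) :
    ∃ U : ℕ → Set ℝ, (∀ n, IsOpen (U n)) ∧ (∀ n, D ⊆ U n) ∧ ν (⋂ n, U n) = 0 := by
  have h : ∀ n : ℕ, ∃ U : Set ℝ, D ⊆ U ∧ IsOpen U ∧ ν U < (n : ℝ≥0∞)⁻¹ := by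
    intro n
    obtain ⟨U, h1, h2, h3⟩ := Set.exists_isOpen_lt_of_lt (μ := ν) D (n : ℝ≥0∞)⁻¹ (by
      rw [hD]; simp)
    exact ⟨U, h1, h2, h3⟩
  choose U h1 h2 h3 using h
  refine ⟨U, h2, h1, ?_⟩
  by_contra hne
  obtain ⟨n, hn⟩ := ENNReal.exists_inv_nat_lt hne
  exact absurd ((measure_mono (Set.iInter_subset U n)).trans_lt (h3 n)) (not_lt.mpr hn.le)

/-- Every finite measure on the line vanishes on a residual Borel set. -/
lemma exists_residual_null (ν : Measure ℝ) [IsFiniteMeasure ν] :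
    ∃ G : Set ℝ, MeasurableSet G ∧ IsMeagre Gᶜ ∧ ν G = 0 := by
  have hat : {x : ℝ | 0 < ν {x}}.Countable := by
    have := Measure.countable_meas_level_set_pos (μ := ν) (g := fun x : ℝ => x) measurable_id
    simpa using this
  have hd : Dense {x : ℝ | 0 < ν {x}}ᶜ := hat.dense_compl ℝ
  obtain ⟨D, hD1, hD2, hD3⟩ := hd.exists_countable_dense_subset
  have hD0 : ν D = 0 := by
    rw [← Set.biUnion_of_singleton D, measure_biUnion_null_iff hD2]
    intro x hx
    have := hD1 hx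
    simpa using this
  obtain ⟨U, h1, h2, h3⟩ := exists_open_seq ν hD0
  refine ⟨⋂ n, U n, MeasurableSet.iInter fun n => (h1 n).measurableSet, ?_, h3⟩
  rw [IsMeagre, compl_compl]
  exact (countable_iInter_mem).2 fun n => residual_of_dense_open (h1 n) (hD3.mono (h2 n))

/-- A closed set missing a dense set is meager. -/
lemma meagre_of_closed {Y : Type} [TopologicalSpace Y] {K D : Set Y} (hK : IsClosed K)
    (hD : Dense D) (h : ∀ x ∈ D, x ∉ K) : IsMeagre K :=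
  residual_of_dense_open hK.isOpen_compl (hD.mono h)

/-- Lebesgue measure on the unit interval -/
noncomputable def l : Measure ℝ := volume.restrict (Set.Icc 0 1)

instance instProbL : IsProbabilityMeasure l := ⟨by simp [l]⟩

instance instNullL : NullSingletonClass l := by unfold l; infer_instance

/-- The small sets: almost all horizontal sections are meager. -/
def Small (F : Set (ℝ × ℝ)) : Prop :=
  MeasurableSet F ∧ ∀ᵐ y ∂l, IsMeagre {x : ℝ | (x, y) ∈ F}

lemma small_cov (G : Set (Set (ℝ × ℝ))) (hG : G.Countable) (h : ∀ F ∈ G, Small F) :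
    ∃ x, ∀ F ∈ G, x ∉ F := by
  have h1 : ∀ᵐ y ∂l, ∀ F ∈ G, IsMeagre {x : ℝ | (x, y) ∈ F} :=
    (ae_ball_iff hG).2 fun F hF => (h F hF).2
  obtain ⟨y, hy⟩ := h1.exists
  have h2 : (⋂ F ∈ G, {x : ℝ | (x, y) ∈ F}ᶜ) ∈ residual ℝ :=
    (countable_bInter_mem hG).2 fun F hF => hy F hF
  obtain ⟨x, hx⟩ := (dense_of_mem_residual h2).nonempty
  refine ⟨(x, y), fun F hF => ?_⟩
  simp only [Set.mem_iInter] at hx
  exact hx F hF

/-- a dense sequence of reals -/
noncomputable def q : ℕ → ℝ := TopologicalSpace.denseSeq ℝ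

/-- The measure concentrated on countably many vertical segments. -/
noncomputable def mu : Measure (ℝ × ℝ) :=
  Measure.sum fun n : ℕ => (2⁻¹ : ℝ≥0∞) ^ n • l.map (Prod.mk (q n))

lemma mu_apply {F : Set (ℝ × ℝ)} (hF : MeasurableSet F) :
    mu F = ∑' n, (2⁻¹ : ℝ≥0∞) ^ n * l (Prod.mk (q n) ⁻¹' F) := by
  rw [mu, Measure.sum_apply _ hF]
  congr 1
  funext n
  rw [Measure.smul_apply, Measure.map_apply measurable_prodMk_left hF, smul_eq_mul]

lemma mu_univ : mu Set.univ < ⊤ := by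
  rw [mu_apply MeasurableSet.univ]
  simp [ENNReal.tsum_geometric]

lemma mu_atom (x : ℝ × ℝ) : mu {x} = 0 := by
  rw [mu_apply (measurableSet_singleton x)]
  refine ENNReal.tsum_eq_zero.2 fun n => ?_
  have : (Prod.mk (q n) ⁻¹' {x}).Subsingleton := by
    intro a ha b hb
    have h1 : (q n, a) = x := ha
    have h2 : (q n, b) = x := hb
    exact (Prod.mk.inj (h1.trans h2.symm)).2
  rw [this.measure_zero, mul_zero]

lemma small_of_mu (K : ℕ → Set (ℝ × ℝ)) (hK : ∀ n, IsClosed (K n)) (h : mu (⋃ n, K n) = 0) :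
    Small (⋃ n, K n) := by
  have hm : MeasurableSet (⋃ n, K n) := MeasurableSet.iUnion fun n => (hK n).measurableSet
  refine ⟨hm, ?_⟩
  rw [mu_apply hm, ENNReal.tsum_eq_zero] at h
  have h1 : ∀ᵐ y ∂l, ∀ n, (q n, y) ∉ ⋃ n, K n := by
    rw [ae_all_iff]
    intro n
    have := (mul_eq_zero.1 (h n)).resolve_left (pow_ne_zero _ (by simp))
    exact compl_mem_ae_iff.2 this
  filter_upwards [h1] with y hy
  have : {x : ℝ | (x, y) ∈ ⋃ n, K n} = ⋃ n, {x : ℝ | (x, y) ∈ K n} := by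
    ext x; simp
  rw [this]
  refine isMeagre_iUnion fun m => ?_
  refine meagre_of_closed (D := Set.range q) ((hK m).preimage (Continuous.prodMk_left y))
    (TopologicalSpace.denseRange_denseSeq ℝ) ?_
  rintro _ ⟨n, rfl⟩ hx
  exact hy n (Set.mem_iUnion.2 ⟨m, hx⟩)

lemma null_of_luzin {A : Set (ℝ × ℝ)} (hA : ∀ F, Small F → (A ∩ F).Countable)
    (ν : Measure (ℝ × ℝ)) [IsFiniteMeasure ν] (h0 : ∀ x, ν {x} = 0) : ν A = 0 := by
  have : NullSingletonClass ν := ⟨h0⟩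
  obtain ⟨G, hG, hm, hn⟩ := exists_residual_null (ν.map Prod.fst)
  rw [Measure.map_apply measurable_fst hG] at hn
  have hs : Small (Prod.fst ⁻¹' Gᶜ) := ⟨measurable_fst hG.compl, ae_of_all _ fun _ => hm⟩
  have h1 := (hA _ hs).measure_zero ν
  refine measure_mono_null (t := (A ∩ Prod.fst ⁻¹' Gᶜ) ∪ Prod.fst ⁻¹' G) ?_
    (measure_union_null h1 hn)
  intro x hx
  by_cases h : x.1 ∈ G
  · exact Or.inr h
  · exact Or.inl ⟨hx, h⟩

lemma pm_of_luzin {A : Set (ℝ × ℝ)} (hA : ∀ F, Small F → (A ∩ F).Countable)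
    (P : ℕ → Set (ℝ × ℝ)) (hP : ∀ n, Perfect (P n)) :
    ∃ K : ℕ → Set (ℝ × ℝ), (∀ n, IsClosed (K n)) ∧ A ⊆ ⋃ n, K n ∧
      ∀ n, IsMeagre (Subtype.val ⁻¹' (⋃ m, K m) : Set (P n)) := by
  have hD : ∀ n, ∃ D : Set (P n), D.Countable ∧ Dense D := fun n =>
    TopologicalSpace.exists_countable_dense (P n)
  choose D hDc hDd using hD
  let D' : Set ℝ := ⋃ n, (fun x : P n => x.1.2) '' D n
  have hD' : D'.Countable := Set.countable_iUnion fun n => (hDc n).image _
  obtain ⟨U, h1, h2, h3⟩ := exists_open_seq l (hD'.measure_zero l)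
  have hs : Small (Prod.snd ⁻¹' ⋂ n, U n) := by
    refine ⟨measurable_snd (MeasurableSet.iInter fun n => (h1 n).measurableSet), ?_⟩
    have : ∀ᵐ y ∂l, y ∉ ⋂ n, U n := compl_mem_ae_iff.2 h3
    filter_upwards [this] with y hy
    have : {x : ℝ | (x, y) ∈ (Prod.snd ⁻¹' ⋂ n, U n : Set (ℝ × ℝ))} = ∅ := by
      ext x
      simpa using hy
    rw [this]
    exact IsMeagre.empty
  have hc := hA _ hs
  let W : Set (Set (ℝ × ℝ)) :=
    Set.range (fun n => Prod.snd ⁻¹' (U n)ᶜ) ∪ (fun x => {x}) '' (A ∩ Prod.snd ⁻¹' ⋂ n, U n)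
  have hW : W.Countable := (Set.countable_range _).union (hc.image _)
  obtain ⟨K, hK⟩ := hW.exists_eq_range ⟨_, Or.inl ⟨0, rfl⟩⟩
  have hKW : ∀ m, K m ∈ W := fun m => by rw [hK]; exact ⟨m, rfl⟩
  refine ⟨K, fun m => ?_, ?_, fun n => ?_⟩
  · rcases hKW m with ⟨k, hk⟩ | ⟨x, -, hx⟩
    · rw [← hk]; exact (h1 k).isClosed_compl.preimage continuous_snd
    · rw [← hx]; exact isClosed_singleton
  · intro x hx
    have : ∃ F ∈ W, x ∈ F := by
      by_cases h : x.2 ∈ ⋂ n, U n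
      · exact ⟨{x}, Or.inr ⟨x, ⟨hx, h⟩, rfl⟩, rfl⟩
      · obtain ⟨k, hk⟩ : ∃ k, x.2 ∉ U k := by simpa using h
        exact ⟨_, Or.inl ⟨k, rfl⟩, hk⟩
    obtain ⟨F, hF, hxF⟩ := this
    rw [hK] at hF
    obtain ⟨m, rfl⟩ := hF
    exact Set.mem_iUnion.2 ⟨m, hxF⟩
  · rw [Set.preimage_iUnion]
    refine isMeagre_iUnion fun m => ?_
    rcases hKW m with ⟨k, hk⟩ | ⟨x, -, hx⟩
    · rw [← hk]
      refine meagre_of_closed (D := D n)
        (((h1 k).isClosed_compl.preimage continuous_snd).preimage continuous_subtype_val)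
        (hDd n) ?_
      intro x hx hx'
      exact hx' (h2 k (Set.mem_iUnion.2 ⟨n, x, hx, rfl⟩))
    · rw [← hx]
      refine meagre_of_closed (D := (Subtype.val ⁻¹' {x})ᶜ)
        (isClosed_singleton.preimage continuous_subtype_val) ?_ (fun _ h => h)
      rw [dense_iff_inter_open]
      rintro V hV ⟨z, hz⟩
      obtain ⟨V', hV', rfl⟩ := isOpen_induced_iff.1 hV
      by_cases hzx : z.1 = x
      · have hacc := (hP n).acc z.1 z.2
        rw [accPt_iff_nhds] at hacc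
        obtain ⟨w, ⟨hw1, hw2⟩, hw3⟩ := hacc V' (hV'.mem_nhds hz)
        exact ⟨⟨w, hw2⟩, hw1, fun h => hw3 ((show w = x from h).trans hzx.symm)⟩
      · exact ⟨z, hz, hzx⟩

theorem main (CH : (𝔠 : Cardinal.{0}) = ℵ₁) : ∃ A : Set (ℝ × ℝ),
    (∀ P : ℕ → Set (ℝ × ℝ), (∀ n, Perfect (P n)) →
      ∃ K : ℕ → Set (ℝ × ℝ), (∀ n, IsClosed (K n)) ∧ A ⊆ ⋃ n, K n ∧
        ∀ n, IsMeagre (Subtype.val ⁻¹' (⋃ m, K m) : Set (P n))) ∧
    (∀ ν : Measure (ℝ × ℝ), ν Set.univ < ⊤ → (∀ x, ν {x} = 0) → ν A = 0) ∧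
    ∃ μ : Measure (ℝ × ℝ), μ Set.univ < ⊤ ∧ (∀ x, μ {x} = 0) ∧
      ∀ K : ℕ → Set (ℝ × ℝ), (∀ n, IsClosed (K n)) → A ⊆ ⋃ n, K n → μ (⋃ n, K n) ≠ 0 := by
  obtain ⟨A, h1, h2⟩ := luzin CH Small (fun _ h => h.1)
    ⟨MeasurableSet.empty, ae_of_all _ fun _ => by simpa using IsMeagre.empty⟩ small_cov
  refine ⟨A, pm_of_luzin h1, fun ν hν h0 => ?_, mu, mu_univ, mu_atom, fun K hK hA h0 => ?_⟩
  · have : IsFiniteMeasure ν := ⟨hν⟩
    exact null_of_luzin h1 ν h0
  · exact h2 _ (small_of_mu K hK h0) hA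

end Pool.Agent.H362Z.PMUN
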