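import Mathlib
import Pool.Agent.H362Z.Cantor

set_option autoImplicit false

open Set Filter Topology Cardinal

namespace Pool.Agent.H362Z.UM

open Pool.Agent.H362Z.Cantor

section transfer

variable {Y : Type} [TopologicalSpace Y]

lemma isNowhereDense_of_forall {X : Type} [TopologicalSpace X] {s : Set X}
    (h : ∀ V : Set X, IsOpen V → V.Nonempty → ∃ W : Set X, IsOpen W ∧ W.Nonempty ∧ W ⊆ V ∧
      Disjoint W s) : IsNowhereDense s := by
  rw [IsNowhereDense]
  by_contra hne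
  obtain ⟨W, hW, ⟨x, hx⟩, hsub, hdis⟩ := h _ isOpen_interior (nonempty_iff_ne_empty.2 hne)
  have hx' : x ∈ closure s := interior_subset (hsub hx)
  obtain ⟨y, hy1, hy2⟩ := mem_closure_iff.1 hx' W hW hx
  exact Set.disjoint_left.1 hdis hy1 hy2

lemma exists_split [T2Space Y] [PerfectSpace Y] (G V : Set Y) (hG : IsOpen G) (hV : IsOpen V)
    (hne : G.Nonempty) : ∃ G0 : Set Y, IsOpen G0 ∧ G0.Nonempty ∧ G0 ⊆ G ∧
      (G \ closure G0).Nonempty ∧ ((G ∩ V).Nonempty → G0 ⊆ V) := by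
  have key : ∀ U : Set Y, IsOpen U → U.Nonempty → ∃ G0 : Set Y, IsOpen G0 ∧ G0.Nonempty ∧
      G0 ⊆ U ∧ (U \ closure G0).Nonempty := by
    rintro U hU ⟨x, hx⟩
    obtain ⟨y, ⟨hy, -⟩, hyx⟩ := preperfect_iff_nhds.1 (PerfectSpace.univ_preperfect (α := Y)) x
      (mem_univ x) U (hU.mem_nhds hx)
    obtain ⟨O, O', hO, hO', hxO, hyO', hdis⟩ := t2_separation hyx.symm
    refine ⟨U ∩ O, hU.inter hO, ⟨x, hx, hxO⟩, inter_subset_left, y, hy, fun hcl => ?_⟩
    obtain ⟨z, hz1, hz2⟩ := mem_closure_iff.1 hcl O' hO' hyO'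
    exact Set.disjoint_left.1 hdis hz2.2 hz1
  by_cases h : (G ∩ V).Nonempty
  · obtain ⟨G0, h1, h2, h3, y, hy1, hy2⟩ := key _ (hG.inter hV) h
    exact ⟨G0, h1, h2, h3.trans inter_subset_left, ⟨y, hy1.1, hy2⟩,
      fun _ => h3.trans inter_subset_right⟩
  · obtain ⟨G0, h1, h2, h3, h4⟩ := key _ hG hne
    exact ⟨G0, h1, h2, h3, h4, fun h' => absurd h' h⟩

/-- A map to the Cantor space under which preimages of meagre sets are meagre. -/
lemma exists_map [T2Space Y] [PerfectSpace Y] [SecondCountableTopology Y] [Nonempty Y] :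
    ∃ ψ : Y → C, ∀ M : Set C, IsMeagre M → IsMeagre (ψ ⁻¹' M) := by
  classical
  obtain ⟨b, hb⟩ := TopologicalSpace.exists_seq_basis Y
  have hbo : ∀ n, IsOpen (b n) := fun n => hb.isOpen ⟨n, rfl⟩
  let O : Type := {G : Set Y // IsOpen G ∧ G.Nonempty}
  have hsp : ∀ (G : O) (n : ℕ), ∃ G0 : Set Y, IsOpen G0 ∧ G0.Nonempty ∧ G0 ⊆ G.1 ∧
      (G.1 \ closure G0).Nonempty ∧ ((G.1 ∩ b n).Nonempty → G0 ⊆ b n) :=
    fun G n => exists_split G.1 (b n) G.2.1 (hbo n) G.2.2
  choose sp hsp1 hsp2 hsp3 hsp4 hsp5 using hsp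
  let step : O → ℕ → Bool → O := fun G n c =>
    if c = true then ⟨G.1 \ closure (sp G n), G.2.1.sdiff isClosed_closure, hsp4 G n⟩
    else ⟨sp G n, hsp1 G n, hsp2 G n⟩
  -- the open set attached to the first `n` bits of a sequence
  let T : C → ℕ → O := fun w n => Nat.rec ⟨univ, isOpen_univ, univ_nonempty⟩
    (fun k G => step G k (w k)) n
  have T_succ : ∀ w n, T w (n + 1) = step (T w n) n (w n) := fun _ _ => rfl
  have T_congr : ∀ w w' n, (∀ k < n, w k = w' k) → T w n = T w' n := by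
    intro w w' n
    induction n with
    | zero => intro _; rfl
    | succ n ih =>
      intro h
      rw [T_succ, T_succ, ih fun k hk => h k (by omega), h n (by omega)]
  have step_sub : ∀ G n c, (step G n c).1 ⊆ G.1 := by
    intro G n c
    cases c
    · exact hsp3 G n
    · exact sdiff_subset
  have T_anti : ∀ w n m, n ≤ m → (T w m).1 ⊆ (T w n).1 := by
    intro w n m hnm
    induction m, hnm using Nat.le_induction with
    | base => exact subset_rfl
    | succ m _ ih => exact (step_sub _ _ _).trans ih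
  have T_uniq : ∀ w w' n y, y ∈ (T w n).1 → y ∈ (T w' n).1 → ∀ k < n, w k = w' k := by
    intro w w' n
    induction n with
    | zero => intro _ _ _ k hk; omega
    | succ n ih =>
      intro y h1 h2 k hk
      have h3 := ih y (T_anti w n (n + 1) (by omega) h1) (T_anti w' n (n + 1) (by omega) h2)
      rcases Nat.lt_succ_iff_lt_or_eq.1 hk with hk | rfl
      · exact h3 k hk
      · rw [T_succ] at h1 h2
        rw [← T_congr w w' k h3] at h2
        revert h1 h2
        cases w k <;> cases w' k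
        · intros; rfl
        · intro h1 h2
          exact absurd (subset_closure h1) h2.2
        · intro h1 h2
          exact absurd (subset_closure h2) h1.2
        · intros; rfl
  have dense_level : ∀ n, ∀ V : Set Y, IsOpen V → V.Nonempty → ∃ w, ((T w n).1 ∩ V).Nonempty := by
    intro n
    induction n with
    | zero =>
      rintro V _ ⟨y, hy⟩
      exact ⟨fun _ => false, y, mem_univ y, hy⟩
    | succ n ih =>
      intro V hV hne
      obtain ⟨w, y, hy1, hy2⟩ := ih V hV hne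
      have hup : ∀ c, T (Function.update w n c) (n + 1) = step (T w n) n c := by
        intro c
        rw [T_succ, Function.update_self, T_congr (Function.update w n c) w n
          fun k hk => Function.update_of_ne (by omega) _ _]
      by_cases hcl : y ∈ closure (sp (T w n) n)
      · obtain ⟨z, hz1, hz2⟩ := mem_closure_iff.1 hcl V hV hy2
        refine ⟨Function.update w n false, z, ?_, hz1⟩
        rw [hup]
        exact hz2
      · refine ⟨Function.update w n true, y, ?_, hy2⟩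
        rw [hup]
        exact ⟨hy1, hcl⟩
  let ψ : Y → C := fun y k => decide (∃ w, y ∈ (T w (k + 1)).1 ∧ w k = true)
  have hψ : ∀ y w n, y ∈ (T w n).1 → ∀ k < n, ψ y k = w k := by
    intro y w n hy k hk
    have hy' : y ∈ (T w (k + 1)).1 := T_anti w _ _ hk hy
    cases hw : w k
    · simp only [ψ, decide_eq_false_iff_not, not_exists, not_and]
      intro w' h1 h2
      have := T_uniq w w' (k + 1) y hy' h1 k (by omega)
      rw [hw, h2] at this
      exact absurd this (by simp)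
    · simp only [ψ, decide_eq_true_eq]
      exact ⟨w, hy', hw⟩
  refine ⟨ψ, fun M hM => ?_⟩
  obtain ⟨S, hS, hSc, hsub⟩ := isMeagre_iff_countable_union_isNowhereDense.1 hM
  refine IsMeagre.mono (t := ψ ⁻¹' M) (s := ⋃ t ∈ S, ψ ⁻¹' t) ?_ (isMeagre_biUnion hSc ?_)
  · intro y hy
    obtain ⟨t, ht, hyt⟩ := hsub hy
    exact mem_biUnion ht hyt
  · intro t ht
    refine (isNowhereDense_of_forall fun V hV hne => ?_).isMeagre
    obtain ⟨y0, hy0⟩ := hne
    obtain ⟨_, ⟨n, rfl⟩, hn1, hn2⟩ := hb.exists_subset_of_mem_open hy0 hV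
    obtain ⟨w, hw⟩ := dense_level n (b n) (hbo n) ⟨y0, hn1⟩
    let w0 := Function.update w n false
    have hw0 : (T w0 (n + 1)).1 ⊆ b n := by
      rw [T_succ, T_congr w0 w n fun k hk => Function.update_of_ne (by omega) _ _]
      simp only [w0, Function.update_self]
      exact hsp5 _ _ hw
    -- a point of the cylinder of `w0` outside the closure of `t`
    have hcyl : IsOpen (PiNat.cylinder w0 (n + 1)) := PiNat.isOpen_cylinder _ _ _
    have : ∃ w1 ∈ PiNat.cylinder w0 (n + 1), w1 ∉ closure t := by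
      by_contra hcon
      push Not at hcon
      have h1 : PiNat.cylinder w0 (n + 1) ⊆ interior (closure t) :=
        interior_maximal hcon hcyl
      rw [hS t ht] at h1
      exact h1 (PiNat.self_mem_cylinder w0 (n + 1))
    obtain ⟨w1, hw1, hw1t⟩ := this
    obtain ⟨_, ⟨x, m, rfl⟩, hx1, hx2⟩ :=
      (PiNat.isTopologicalBasis_cylinders (fun _ : ℕ => Bool)).exists_subset_of_mem_open
        (show w1 ∈ (closure t)ᶜ from hw1t) isClosed_closure.isOpen_compl
    refine ⟨(T w1 (max m (n + 1))).1, (T w1 _).2.1, (T w1 _).2.2, ?_, ?_⟩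
    · refine ((T_anti w1 _ _ (le_max_right _ _)).trans ?_).trans hn2
      rw [T_congr w1 w0 (n + 1) (PiNat.mem_cylinder_iff.1 hw1)]
      exact hw0
    · rw [Set.disjoint_left]
      intro y hy hyt
      have h1 : ψ y ∈ PiNat.cylinder x m := by
        rw [PiNat.mem_cylinder_iff]
        intro k hk
        rw [hψ y w1 _ hy k (lt_of_lt_of_le hk (le_max_left _ _))]
        exact PiNat.mem_cylinder_iff.1 hx1 k hk
      exact hx2 h1 (subset_closure hyt)

end transfer

/-- A nonmeagre subset of the Cantor space yields an unbounded family of monotone functions. -/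
lemma exists_unbounded {N : Set C} (hN : ¬ IsMeagre N) :
    ∃ T : C → ℕ → ℕ, (∀ w, Monotone (T w)) ∧
      ∀ h : ℕ → ℕ, ∃ w ∈ N, ¬ ∀ᶠ n in atTop, T w n ≤ h n := by
  classical
  let T : C → ℕ → ℕ := fun w n =>
    if hw : ∀ n, ∃ k, n ≤ k ∧ w k = true then Nat.find (hw n) else 0
  refine ⟨T, ?_, fun h => ?_⟩
  · intro w n n' hn
    by_cases hw : ∀ n, ∃ k, n ≤ k ∧ w k = true
    · simp only [T, dif_pos hw]
      exact Nat.find_mono fun k hk => ⟨hn.trans hk.1, hk.2⟩
    · simp only [T, dif_neg hw, le_refl]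
  · by_contra hcon
    push Not at hcon
    apply hN
    let A : ℕ → Set C := fun m => {w | ∀ n, m ≤ n → ∃ k, n ≤ k ∧ k ≤ h n ∧ w k = true}
    let B : ℕ → Set C := fun m => {w | ∀ k, m ≤ k → w k = false}
    have cyl : ∀ V : Set C, IsOpen V → V.Nonempty → ∃ x l, PiNat.cylinder x l ⊆ V := by
      rintro V hV ⟨y, hy⟩
      obtain ⟨_, ⟨x, l, rfl⟩, -, h2⟩ :=
        (PiNat.isTopologicalBasis_cylinders (fun _ : ℕ => Bool)).exists_subset_of_mem_open hy hV
      exact ⟨x, l, h2⟩
    have hA : ∀ m, IsNowhereDense (A m) := by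
      intro m
      refine isNowhereDense_of_forall fun V hV hne => ?_
      obtain ⟨x, l, hx⟩ := cyl V hV hne
      let n := max m l
      let x' : C := fun k => if k < n then x k else false
      refine ⟨PiNat.cylinder x' (n + h n + 1), PiNat.isOpen_cylinder _ _ _,
        ⟨x', PiNat.self_mem_cylinder _ _⟩, fun y hy => hx ?_, ?_⟩
      · rw [PiNat.mem_cylinder_iff] at hy ⊢
        intro k hk
        have h1 : k < n := lt_of_lt_of_le hk (le_max_right _ _)
        rw [hy k (by omega)]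
        simp [x', h1]
      · rw [Set.disjoint_left]
        intro y hy hyA
        obtain ⟨k, h1, h2, h3⟩ := hyA n (le_max_left _ _)
        rw [PiNat.mem_cylinder_iff.1 hy k (by omega)] at h3
        simp [x', not_lt.2 h1] at h3
    have hB : ∀ m, IsNowhereDense (B m) := by
      intro m
      refine isNowhereDense_of_forall fun V hV hne => ?_
      obtain ⟨x, l, hx⟩ := cyl V hV hne
      let n := max m l
      let x' : C := fun k => if k < n then x k else true
      refine ⟨PiNat.cylinder x' (n + 1), PiNat.isOpen_cylinder _ _ _,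
        ⟨x', PiNat.self_mem_cylinder _ _⟩, fun y hy => hx ?_, ?_⟩
      · rw [PiNat.mem_cylinder_iff] at hy ⊢
        intro k hk
        have h1 : k < n := lt_of_lt_of_le hk (le_max_right _ _)
        rw [hy k (by omega)]
        simp [x', h1]
      · rw [Set.disjoint_left]
        intro y hy hyB
        have h3 := hyB n (le_max_left _ _)
        rw [PiNat.mem_cylinder_iff.1 hy n (by omega)] at h3
        simp [x'] at h3
    refine IsMeagre.mono (s := (⋃ m, A m) ∪ ⋃ m, B m) ?_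
      ((isMeagre_iUnion fun m => (hA m).isMeagre).union
        (isMeagre_iUnion fun m => (hB m).isMeagre))
    intro w hwN
    by_cases hw : ∀ n, ∃ k, n ≤ k ∧ w k = true
    · left
      obtain ⟨m, hm⟩ := eventually_atTop.1 (hcon w hwN)
      refine mem_iUnion.2 ⟨m, fun n hn => ?_⟩
      have h1 := hm n hn
      simp only [T, dif_pos hw] at h1
      exact ⟨Nat.find (hw n), (Nat.find_spec (hw n)).1, h1, (Nat.find_spec (hw n)).2⟩
    · right
      push Not at hw
      obtain ⟨m, hm⟩ := hw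
      exact mem_iUnion.2 ⟨m, fun k hk => by simpa using hm k hk⟩

lemma isMeagre_singleton (x : C) : IsMeagre ({x} : Set C) := by
  refine (isNowhereDense_of_forall fun V hV hne => ?_).isMeagre
  obtain ⟨y, hy⟩ := hne
  by_cases hyx : y = x
  · subst hyx
    obtain ⟨_, ⟨x', l, rfl⟩, h1, h2⟩ :=
      (PiNat.isTopologicalBasis_cylinders (fun _ : ℕ => Bool)).exists_subset_of_mem_open hy hV
    refine ⟨V \ {y}, hV.sdiff isClosed_singleton, ⟨Function.update y l (!y l), h2 ?_, ?_⟩,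
      sdiff_subset, disjoint_sdiff_left⟩
    · rw [PiNat.mem_cylinder_iff] at h1 ⊢
      intro k hk
      rw [Function.update_of_ne (by omega), h1 k hk]
    · intro h
      have := congrFun (mem_singleton_iff.1 h) l
      simp at this
  · exact ⟨V \ {x}, hV.sdiff isClosed_singleton, ⟨y, hy, hyx⟩, sdiff_subset, disjoint_sdiff_left⟩

lemma perfect_range_mk (v : C) : Perfect (range (mk v)) := by
  refine ⟨(isCompact_range (continuous_mk_right v)).isClosed, preperfect_iff_nhds.2 ?_⟩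
  rintro _ ⟨f, rfl⟩ U hU
  have h1 : mk v ⁻¹' U ∈ 𝓝 f := (continuous_mk_right v).continuousAt hU
  obtain ⟨W, hW1, hW2, hW3⟩ := mem_nhds_iff.1 h1
  have h2 : ¬ W ⊆ {f} := fun h =>
    not_isMeagre_of_isOpen hW2 ⟨f, hW3⟩ ((isMeagre_singleton f).mono h)
  obtain ⟨g, hg1, hg2⟩ := not_subset.1 h2
  exact ⟨mk v g, ⟨hW1 hg1, g, rfl⟩, fun h => hg2 (mk_right_injective v h)⟩

lemma isMeagre_section (v : C) (F : Set C)
    (h : IsMeagre (Subtype.val ⁻¹' F : Set (range (mk v)))) : IsMeagre (mk v ⁻¹' F) := by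
  have hemb : IsEmbedding (mk v) :=
    ((continuous_mk_right v).isClosedEmbedding (mk_right_injective v)).isEmbedding
  let e := hemb.toHomeomorph
  exact h.preimage_of_isOpenMap e.continuous e.isOpenMap

lemma exists_index (N : Set C) (hinf : ℵ₀ ≤ #N) : ∃ (I : Type) (_ : LinearOrder I) (p p' : I → C),
    (∀ f ∈ N, ∀ w ∈ N, ∃ i, p i = f ∧ p' i = w) ∧ ∀ i : I, #(Iic i) < #N := by
  let I := (#N).ord.ToType
  have hI : #I = #(N × N) := by
    simp only [I, Cardinal.mk_prod, Cardinal.lift_id, Cardinal.mk_ord_toType]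
    exact (Cardinal.mul_eq_self hinf).symm
  obtain ⟨e⟩ := Cardinal.eq.1 hI
  refine ⟨I, inferInstance, fun i => (e i).1, fun i => (e i).2, fun f hf w hw =>
    ⟨e.symm (⟨f, hf⟩, ⟨w, hw⟩), by simp, by simp⟩, fun i => ?_⟩
  have h1 : #(Iio i) < #N := by simpa [I] using Cardinal.mk_Iio_lt i (by simp [I])
  rw [← Iio_insert]
  refine lt_of_le_of_lt Cardinal.mk_insert_le ?_
  exact Cardinal.add_lt_of_lt hinf h1 (lt_of_lt_of_le Cardinal.one_lt_aleph0 hinf)

theorem main : ∃ E : Set C,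
    (∀ (Y : Type) [TopologicalSpace Y] [PolishSpace Y] [PerfectSpace Y] [MeasurableSpace Y]
      [BorelSpace Y] (φ : C ≃ᵐ Y), IsMeagre (φ '' E)) ∧
    ∃ P : ℕ → Set C, (∀ n, Perfect (P n) ∧ (P n).Nonempty) ∧
      ∀ F : ℕ → Set C, (∀ m, IsClosed (F m)) → E ⊆ ⋃ m, F m →
        ¬ ∀ n, IsMeagre (Subtype.val ⁻¹' (⋃ m, F m) : Set (P n)) := by
  classical
  -- a nonmeagre set of least cardinality
  have hex : ∃ N : Set C, ¬ IsMeagre N ∧ ∀ A : Set C, #A < #N → IsMeagre A := by
    let K : Set Cardinal.{0} := {c | ∃ N : Set C, ¬ IsMeagre N ∧ #N = c}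
    have hK : K.Nonempty := ⟨_, univ, not_isMeagre_of_isOpen isOpen_univ univ_nonempty, rfl⟩
    obtain ⟨N, hN, hNc⟩ := csInf_mem hK
    refine ⟨N, hN, fun A hA => ?_⟩
    by_contra hA'
    have : sInf K ≤ #A := csInf_le' ⟨A, hA', rfl⟩
    rw [← hNc] at this
    exact absurd hA (not_lt.2 this)
  obtain ⟨N, hN, hmin⟩ := hex
  have hinf : ℵ₀ ≤ #N := by
    by_contra hh
    have hfin : N.Finite := Cardinal.lt_aleph0_iff_set_finite.1 (not_le.1 hh)
    apply hN
    rw [← biUnion_of_singleton N]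
    exact isMeagre_biUnion hfin.countable fun x _ => isMeagre_singleton x
  obtain ⟨T, hTm, hTu⟩ := exists_unbounded hN
  obtain ⟨I, _, p, p', hp, hIic⟩ := exists_index N hinf
  have hcode : ∀ i : I, ∃ (U : ℕ → Set C) (z : C), (∀ m, IsOpen (U m) ∧ Dense (U m)) ∧
      (∀ j : I, j < i → ∃ m, p j ∉ U m) ∧
      ∀ m w, w ∈ U m ↔ ∃ k, z (Nat.pair m k) = true ∧ w ∈ bas k := by
    intro i
    have h1 : IsMeagre (p '' Iic i) :=
      hmin _ (lt_of_le_of_lt Cardinal.mk_image_le (hIic i))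
    obtain ⟨S, hS1, hS2, hS3, hS4⟩ := mem_residual_iff.1 h1
    obtain ⟨U, hU⟩ := (hS3.insert Set.univ).exists_eq_range (insert_nonempty _ _)
    have hUo : ∀ m, IsOpen (U m) ∧ Dense (U m) := by
      intro m
      have : U m ∈ insert Set.univ S := hU ▸ mem_range_self m
      rcases this with h | h
      · rw [h]; exact ⟨isOpen_univ, dense_univ⟩
      · exact ⟨hS1 _ h, hS2 _ h⟩
    obtain ⟨z, hz⟩ := exists_code U fun m => (hUo m).1
    refine ⟨U, z, hUo, fun j hj => ?_, hz⟩
    by_contra hcon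
    push Not at hcon
    refine hS4 (a := p j) ?_ ⟨j, hj.le, rfl⟩
    intro t ht
    have : t ∈ range U := hU ▸ mem_insert_of_mem _ ht
    obtain ⟨m, rfl⟩ := this
    exact hcon m
  choose U z hU1 hU2 hU3 using hcode
  let e : I → C := fun i => Cantor.mk (gr (lab (T (p' i)) (z i))) (p i)
  refine ⟨range e, ?_, ?_⟩
  · intro Y _ _ _ _ _ φ
    have : Nonempty Y := ⟨φ fun _ => false⟩
    obtain ⟨ψ, hψ⟩ := exists_map (Y := Y)
    have hsmall : ∀ A : Set Y, #A < #N → IsMeagre A := fun A hA =>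
      (hψ _ (hmin _ (lt_of_le_of_lt Cardinal.mk_image_le hA))).mono (subset_preimage_image ψ A)
    have hO : ∀ n, ∃ O : Set Y, IsOpen O ∧ φ '' D n =ᶠ[residual Y] O := fun n =>
      (φ.measurableSet_image.2 (isOpen_D n).measurableSet).residualEq_isOpen
    choose O hOo hOe using hO
    let G : Set Y := {y | ∀ n, y ∈ φ '' D n ↔ y ∈ O n}
    have hG : G ∈ residual Y := by
      have : G = ⋂ n, {y | y ∈ φ '' D n ↔ y ∈ O n} := by ext y; simp [G]
      rw [this, countable_iInter_mem]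
      intro n
      exact (hOe n).mem_iff
    have hGz : ∀ i n, φ (e i) ∈ G → (φ (e i) ∈ O n ↔ z i n = true) := by
      intro i n h
      rw [← h n, φ.injective.mem_set_image]
      exact mem_D _ _ _ _
    obtain ⟨b, hb⟩ := TopologicalSpace.exists_seq_basis Y
    have hch : ∀ r, ∃ M : Set C, IsMeagre M ∧ ((∃ i, φ (e i) ∈ b r ∩ G) →
        ∃ i, φ (e i) ∈ b r ∩ G ∧ ∀ w, w ∉ M → ∀ m, w ∈ U i m) := by
      intro r
      by_cases h : ∃ i, φ (e i) ∈ b r ∩ G
      · obtain ⟨i, hi⟩ := h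
        refine ⟨⋃ m, (U i m)ᶜ, isMeagre_iUnion fun m => ?_, fun _ => ⟨i, hi, fun w hw m => ?_⟩⟩
        · rw [IsMeagre, compl_compl]
          exact residual_of_dense_open (hU1 i m).1 (hU1 i m).2
        · by_contra hc
          exact hw (mem_iUnion.2 ⟨m, hc⟩)
      · exact ⟨∅, IsMeagre.empty, fun h' => absurd h' h⟩
    choose M hM1 hM2 using hch
    obtain ⟨f, hfN, hfM⟩ : ∃ f ∈ N, f ∉ ⋃ r, M r := by
      by_contra hcon
      push Not at hcon
      exact hN ((isMeagre_iUnion hM1).mono hcon)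
    obtain ⟨j, hj, -⟩ := hp f hfN f hfN
    let E' : ℕ → Set Y := fun m => {y | y ∈ G ∧ ∃ i, y = φ (e i) ∧ f ∉ U i m}
    have hE' : ∀ m, IsNowhereDense (E' m) := by
      intro m
      refine isNowhereDense_of_forall fun V hV hne => ?_
      obtain ⟨y0, hy0⟩ := hne
      obtain ⟨_, ⟨r, rfl⟩, hr1, hr2⟩ := hb.exists_subset_of_mem_open hy0 hV
      have hbo : IsOpen (b r) := hb.isOpen ⟨r, rfl⟩
      by_cases h : ∃ i, φ (e i) ∈ b r ∩ G
      · obtain ⟨i, hi, hi2⟩ := hM2 r h
        obtain ⟨k, hk1, hk2⟩ := (hU3 i m f).1 (hi2 f (fun hh => hfM (mem_iUnion.2 ⟨r, hh⟩)) m)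
        refine ⟨b r ∩ O (Nat.pair m k), hbo.inter (hOo _),
          ⟨φ (e i), hi.1, (hGz i _ hi.2).2 hk1⟩, inter_subset_left.trans hr2, ?_⟩
        rw [Set.disjoint_left]
        rintro y hy ⟨hyG, i', rfl, hi'⟩
        exact hi' ((hU3 i' m f).2 ⟨k, (hGz i' _ hyG).1 hy.2, hk2⟩)
      · refine ⟨b r, hbo, ⟨y0, hr1⟩, hr2, ?_⟩
        rw [Set.disjoint_left]
        rintro y hy ⟨hyG, i', rfl, -⟩
        exact h ⟨i', hy, hyG⟩
    refine IsMeagre.mono (s := (Gᶜ ∪ ⋃ m, E' m) ∪ (fun i => φ (e i)) '' Iic j) ?_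
      (IsMeagre.union (IsMeagre.union ?_ (isMeagre_iUnion fun m => (hE' m).isMeagre))
        (hsmall _ (lt_of_le_of_lt Cardinal.mk_image_le (hIic j))))
    · rintro _ ⟨_, ⟨i, rfl⟩, rfl⟩
      by_cases hij : i ≤ j
      · exact Or.inr ⟨i, hij, rfl⟩
      · left
        by_cases hg : φ (e i) ∈ G
        · obtain ⟨m, hm⟩ := hU2 i j (not_le.1 hij)
          exact Or.inr (mem_iUnion.2 ⟨m, hg, i, rfl, hj ▸ hm⟩)
        · exact Or.inl hg
    · rw [IsMeagre, compl_compl]
      exact hG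
  · obtain ⟨q, hq⟩ := exists_surjective_nat (Finset ℕ)
    refine ⟨fun n => range (mk (fin (q n))), fun n => ⟨perfect_range_mk _, range_nonempty _⟩, ?_⟩
    intro F hF hE hP
    have hM : IsMeagre (⋃ n, mk (fin (q n)) ⁻¹' ⋃ m, F m) :=
      isMeagre_iUnion fun n => isMeagre_section _ _ (hP n)
    obtain ⟨f, hfN, hfM⟩ : ∃ f ∈ N, f ∉ ⋃ n, mk (fin (q n)) ⁻¹' ⋃ m, F m := by
      by_contra hcon
      push Not at hcon
      exact hN (hM.mono hcon)
    obtain ⟨h, hh⟩ := exists_bound (F := fun m => (fun v => mk v f) ⁻¹' F m)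
      (fun m => (hF m).preimage (continuous_mk_left f)) (by
        intro m s hs
        obtain ⟨n, rfl⟩ := hq s
        exact hfM (mem_iUnion.2 ⟨n, mem_iUnion.2 ⟨m, hs⟩⟩))
    obtain ⟨w, hwN, hw⟩ := hTu h
    obtain ⟨i, rfl, rfl⟩ := hp f hfN w hwN
    refine hw (hh (T (p' i)) (z i) (hTm _) ?_)
    obtain ⟨m, hm⟩ := mem_iUnion.1 (hE ⟨i, rfl⟩)
    exact mem_iUnion.2 ⟨m, hm⟩

end Pool.Agent.H362Z.UM
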