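import Mathlib
import Pool.Agent.H362Z.Cantor

set_option autoImplicit false

open Set Filter Topology Cardinal MeasureTheory

namespace Pool.Agent.H362Z.UN

open Pool.Agent.H362Z.Cantor

/-- Monotone functions, with no order on them. -/
structure Mon : Type where
  f : ℕ → ℕ
  mono : Monotone f

/-- An unbounded family of monotone functions that is well-ordered by eventual strict
domination. -/
lemma exists_scale : ∃ (J : Type) (_ : LinearOrder J) (_ : WellFoundedLT J) (H : J → ℕ → ℕ),
    (∀ j, Monotone (H j)) ∧ (∀ i j, i < j → ∀ᶠ n in atTop, H i n < H j n) ∧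
      ∀ h : ℕ → ℕ, ∃ j, ¬ ∀ᶠ n in atTop, H j n ≤ h n := by
  classical
  let M : Type := Mon
  let r : M → M → Prop := fun g h => ∀ᶠ n in atTop, g.1 n < h.1 n
  have r_trans : ∀ a b c, r a b → r b c → r a c := by
    intro a b c h1 h2
    filter_upwards [h1, h2] with n h1 h2 using h1.trans h2
  have r_irrefl : ∀ a, ¬ r a a := by
    intro a h
    obtain ⟨n, hn⟩ := h.exists
    exact lt_irrefl _ hn
  have hmax : IsMaxChain r (maxChain r) := maxChain_spec
  obtain ⟨_, _⟩ := exists_wellFoundedLT (α := M)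
  let S : Set (M) := {h | h ∈ maxChain r ∧ ∀ g : M, g < h → g ∈ maxChain r →
    r g h}
  refine ⟨S, inferInstance, inferInstance, fun j => j.1.1, fun j => j.1.2,
    fun i j hij => j.2.2 i.1 hij i.2.1, fun h => ?_⟩
  by_contra hcon
  push Not at hcon
  let g : M := ⟨fun n => (Finset.range (n + 1)).sup h + 1, fun a b hab => by
    have : (Finset.range (a + 1)).sup h ≤ (Finset.range (b + 1)).sup h :=
      Finset.sup_mono (Finset.range_mono (by omega))
    simp only
    omega⟩
  have hS : ∀ j : S, r j.1 g := by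
    intro j
    filter_upwards [hcon j] with n hn
    have : h n ≤ (Finset.range (n + 1)).sup h := Finset.le_sup (Finset.mem_range.2 (by omega))
    simp only [g]
    omega
  have hall : ∀ a ∈ maxChain r, r a g := by
    intro a ha
    let A : Set (M) := {b | b ∈ maxChain r ∧ (b = a ∨ r a b)}
    have hA : A.Nonempty := ⟨a, ha, Or.inl rfl⟩
    let b := wellFounded_lt.min A hA
    have hb : b ∈ A := wellFounded_lt.min_mem A hA
    have hbS : b ∈ S := by
      refine ⟨hb.1, fun c hc hcm => ?_⟩
      have hne : c ≠ b := hc.ne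
      rcases hmax.1 hcm hb.1 hne with h1 | h1
      · exact h1
      · exfalso
        refine wellFounded_lt.not_lt_min A (x := c) ⟨hcm, Or.inr ?_⟩ hc
        rcases hb.2 with h2 | h2
        · exact h2 ▸ h1
        · exact r_trans _ _ _ h2 h1
    rcases hb.2 with h2 | h2
    · exact h2 ▸ hS ⟨b, hbS⟩
    · exact r_trans _ _ _ h2 (hS ⟨b, hbS⟩)
  have hch : IsChain r (insert g (maxChain r)) :=
    hmax.1.insert fun b hb _ => Or.inr (hall b hb)
  have : g ∈ maxChain r := by
    rw [hmax.2 hch (subset_insert _ _)]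
    exact mem_insert _ _
  exact r_irrefl g (hall g this)

section chain

variable {X : Type} [MeasurableSpace X] (μ : Measure X) [IsFiniteMeasure μ]

omit [IsFiniteMeasure μ] in
lemma exists_mem_of_ae {A : Set X} (hA : μ A ≠ 0) {P : X → Prop}
    (h : ∀ᵐ x ∂(μ.restrict (toMeasurable μ A)), P x) : ∃ x ∈ A, P x := by
  by_contra hcon
  push Not at hcon
  rw [ae_restrict_iff' (measurableSet_toMeasurable μ A)] at h
  apply hA
  refine measure_mono_null (fun x hx => ?_) h
  intro hh
  exact hcon x hx (hh (subset_toMeasurable μ A hx))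

/-- A union of null sets along a well-order that is induced by a measurable relation is null. -/
lemma null_of_chain {J : Type} [LinearOrder J] [WellFoundedLT J] (A : J → Set X)
    (hA : ∀ j, μ (A j) = 0) (R : Set (X × X)) (hR : MeasurableSet R)
    (hlt : ∀ i j, i < j → ∀ x ∈ A i, ∀ y ∈ A j, (x, y) ∈ R ∧ (y, x) ∉ R) :
    μ (⋃ j, A j) = 0 := by
  have key : ∀ D : Set J, (∀ j ∈ D, μ (⋃ i ∈ Iic j, A i) = 0) → μ (⋃ j ∈ D, A j) = 0 := by
    intro D hD
    by_contra hne
    set B := ⋃ j ∈ D, A j with hB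
    let ν := μ.restrict (toMeasurable μ B)
    have hν : ∀ s, MeasurableSet s → ν s = μ (B ∩ s) := by
      intro s hs
      simp only [ν]
      rw [Measure.restrict_apply hs, inter_comm,
        Measure.measure_toMeasurable_inter hs (measure_ne_top _ _)]
    have h1 : ∀ y ∈ B, ν ((fun x => (x, y)) ⁻¹' R) = 0 := by
      intro y hy
      obtain ⟨j, hj, hyj⟩ := mem_iUnion₂.1 hy
      rw [hν _ (measurable_prodMk_right hR)]
      refine measure_mono_null ?_ (hD j hj)
      rintro x ⟨hx, hxR⟩
      obtain ⟨i, -, hxi⟩ := mem_iUnion₂.1 hx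
      by_cases hij : i ≤ j
      · exact mem_iUnion₂.2 ⟨i, hij, hxi⟩
      · exact absurd hxR (hlt j i (not_le.1 hij) y hyj x hxi).2
    have hmeas : Measurable fun y => ν ((fun x => (x, y)) ⁻¹' R) :=
      measurable_measure_prodMk_right hR
    have h2 : ν.prod ν R = 0 := by
      rw [Measure.prod_apply_symm hR, lintegral_eq_zero_iff hmeas]
      have hs : MeasurableSet {y | ν ((fun x => (x, y)) ⁻¹' R) ≠ 0} :=
        (hmeas (measurableSet_singleton 0)).compl
      show ν {y | ν ((fun x => (x, y)) ⁻¹' R) ≠ 0} = 0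
      rw [hν _ hs]
      have : B ∩ {y | ν ((fun x => (x, y)) ⁻¹' R) ≠ 0} = ∅ := by
        ext y
        simp only [mem_inter_iff, mem_ofPred_eq, mem_empty_iff_false, iff_false, not_and, not_not]
        exact h1 y
      rw [this, measure_empty]
    obtain ⟨x, hxB, hx⟩ := exists_mem_of_ae μ hne (Measure.measure_ae_null_of_prod_null h2)
    obtain ⟨i, hi, hxi⟩ := mem_iUnion₂.1 hxB
    simp only [Pi.zero_apply] at hx
    rw [hν _ (measurable_prodMk_left hR)] at hx
    apply hne
    refine measure_mono_null (t := (B ∩ Prod.mk x ⁻¹' R) ∪ ⋃ k ∈ Iic i, A k) ?_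
      (measure_union_null hx (hD i hi))
    intro y hy
    obtain ⟨j, -, hyj⟩ := mem_iUnion₂.1 hy
    by_cases hij : j ≤ i
    · exact Or.inr (mem_iUnion₂.2 ⟨j, hij, hyj⟩)
    · exact Or.inl ⟨hy, (hlt i j (not_le.1 hij) x hxi y hyj).1⟩
  have ind : ∀ j, μ (⋃ i ∈ Iic j, A i) = 0 := by
    intro j
    induction j using WellFoundedLT.induction with
    | ind j ih =>
      have h1 := key (Iio j) fun i hi => ih i hi
      rw [← Iio_insert, biUnion_insert]
      exact measure_union_null (hA j) h1
  have := key Set.univ fun j _ => ind j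
  simpa using this

end chain

lemma exists_measure : ∃ l : Measure C, IsFiniteMeasure l ∧ (∀ x, l {x} = 0) ∧
    l Set.univ ≠ 0 := by
  obtain ⟨f, hf, hinj⟩ := MeasurableSpace.measurable_injection_nat_bool_of_countablySeparated ℝ
  refine ⟨Measure.map f (volume.restrict (Icc (0 : ℝ) 1)), inferInstance, fun x => ?_, ?_⟩
  · rw [Measure.map_apply hf (measurableSet_singleton x)]
    exact (Set.Subsingleton.finite (Set.subsingleton_singleton.preimage hinj)).measure_zero _
  · rw [Measure.map_apply hf MeasurableSet.univ]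
    simp

lemma exists_index (N : Set C) (hinf : ℵ₀ ≤ #N) : ∃ (I : Type) (_ : LinearOrder I) (p : I → C),
    (∀ f ∈ N, ∃ i, p i = f) ∧ ∀ i : I, #(Iic i) < #N := by
  let I := (#N).ord.ToType
  have hI : #I = #N := by
    simp only [I, Cardinal.mk_ord_toType]
  obtain ⟨e⟩ := Cardinal.eq.1 hI
  refine ⟨I, inferInstance, fun i => e i, fun f hf => ⟨e.symm ⟨f, hf⟩, by simp⟩, fun i => ?_⟩
  have h1 : #(Iio i) < #N := by simpa [I] using Cardinal.mk_Iio_lt i (by simp [I])
  rw [← Iio_insert]
  refine lt_of_le_of_lt Cardinal.mk_insert_le ?_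
  exact Cardinal.add_lt_of_lt hinf h1 (lt_of_lt_of_le Cardinal.one_lt_aleph0 hinf)

/-- Eventual domination, read off from the graphs. -/
def Rel : Set (C × C) := {q | ∃ m, ∀ n, m ≤ n → ∀ k k', ev q.1 (Nat.pair n k) = true →
  ev q.2 (Nat.pair n k') = true → k / 2 ≤ k' / 2}

lemma measurableSet_Rel : MeasurableSet Rel := by
  have h1 : ∀ p, Measurable fun q : C × C => ev q.1 p = true := fun p =>
    measurableSet_setOfPred.1 (((isOpen_coord p true).preimage
      (continuous_ev.comp continuous_fst)).measurableSet)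
  have h2 : ∀ p, Measurable fun q : C × C => ev q.2 p = true := fun p =>
    measurableSet_setOfPred.1 (((isOpen_coord p true).preimage
      (continuous_ev.comp continuous_snd)).measurableSet)
  refine measurableSet_setOfPred.2 ?_
  refine Measurable.exists fun m => Measurable.forall fun n => Measurable.imp measurable_const ?_
  exact Measurable.forall fun k => Measurable.forall fun k' => Measurable.imp (h1 _)
    (Measurable.imp (h2 _) measurable_const)

lemma mem_Rel (H H' : ℕ → ℕ) (z z' f f' : C) :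
    (Cantor.mk (gr (lab H z)) f, Cantor.mk (gr (lab H' z')) f') ∈ Rel ↔
      ∀ᶠ n in atTop, H n ≤ H' n := by
  simp only [Rel, mem_ofPred_eq, ev_mk, gr_pair, eventually_atTop, lab]
  refine exists_congr fun m => forall_congr' fun n => imp_congr_right fun _ => ?_
  have h1 : (z n).toNat ≤ 1 := Bool.toNat_le _
  have h2 : (z' n).toNat ≤ 1 := Bool.toNat_le _
  constructor
  · intro h
    have := h _ _ rfl rfl
    omega
  · rintro h k k' rfl rfl
    omega

theorem main : ∃ E : Set C,
    (∀ μ : Measure C, IsFiniteMeasure μ → (∀ x, μ {x} = 0) → μ E = 0) ∧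
    ∃ μ : Measure C, IsFiniteMeasure μ ∧ (∀ x, μ {x} = 0) ∧
      ∀ F : ℕ → Set C, (∀ m, IsClosed (F m)) → E ⊆ ⋃ m, F m → μ (⋃ m, F m) ≠ 0 := by
  classical
  have hex : ∃ (N : Set C) (l : Measure C), IsFiniteMeasure l ∧ (∀ x, l {x} = 0) ∧ l N ≠ 0 ∧
      ∀ (A : Set C) (μ : Measure C), IsFiniteMeasure μ → (∀ x, μ {x} = 0) → #A < #N → μ A = 0 := by
    let K : Set Cardinal.{0} := {c | ∃ (N : Set C) (l : Measure C), IsFiniteMeasure l ∧
      (∀ x, l {x} = 0) ∧ l N ≠ 0 ∧ #N = c}
    obtain ⟨l0, h1, h2, h3⟩ := exists_measure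
    have hK : K.Nonempty := ⟨_, Set.univ, l0, h1, h2, h3, rfl⟩
    obtain ⟨N, l, h1, h2, h3, hNc⟩ := csInf_mem hK
    refine ⟨N, l, h1, h2, h3, fun A μ h4 h5 hA => ?_⟩
    by_contra hA'
    have : sInf K ≤ #A := csInf_le' ⟨A, μ, h4, h5, hA', rfl⟩
    rw [← hNc] at this
    exact absurd hA (not_lt.2 this)
  obtain ⟨N, l, hl, hl0, hN, hmin⟩ := hex
  have hinf : ℵ₀ ≤ #N := by
    by_contra hh
    have hfin : N.Finite := Cardinal.lt_aleph0_iff_set_finite.1 (not_le.1 hh)
    apply hN
    rw [← biUnion_of_singleton N]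
    exact (measure_biUnion_null_iff hfin.countable).2 fun x _ => hl0 x
  obtain ⟨I, _, p, hp, hIic⟩ := exists_index N hinf
  obtain ⟨J, _, _, H, hHm, hHlt, hHu⟩ := exists_scale
  have hcode : ∀ i : I, ∃ z : C, (∀ j : I, j < i → ∀ m, ∃ k, z (Nat.pair m k) = true ∧
      p j ∈ bas k) ∧ l {w | ∀ m, ∃ k, z (Nat.pair m k) = true ∧ w ∈ bas k} = 0 := by
    intro i
    have h1 : l (p '' Iic i) = 0 :=
      hmin _ l hl hl0 (lt_of_le_of_lt Cardinal.mk_image_le (hIic i))
    obtain ⟨u, -, hu2, hu3⟩ := exists_seq_strictAnti_tendsto' (zero_lt_one' ENNReal)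
    have hU : ∀ m, ∃ U, U ⊇ p '' Iic i ∧ IsOpen U ∧ l U < u m := fun m =>
      Set.exists_isOpen_lt_of_lt _ _ (h1 ▸ (hu2 m).1)
    choose U hU1 hU2 hU3 using hU
    obtain ⟨z, hz⟩ := exists_code U hU2
    refine ⟨z, fun j hj m => (hz m _).1 (hU1 m ⟨j, hj.le, rfl⟩), ?_⟩
    refine le_antisymm (ge_of_tendsto' hu3 fun m => ?_) zero_le
    refine le_trans (measure_mono fun w hw => ?_) (hU3 m).le
    exact (hz m w).2 (hw m)
  choose z hz1 hz2 using hcode
  let e : J → I → C := fun j i => Cantor.mk (gr (lab (H j) (z i))) (p i)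
  refine ⟨⋃ j, range (e j), fun μ hμ hμ0 => ?_, ?_⟩
  · refine null_of_chain μ (fun j => range (e j)) (fun j => ?_) Rel measurableSet_Rel ?_
    · let S : Set (C × C) := {q | ∀ m, ∃ k, q.1 ∈ D (Nat.pair m k) ∧ q.2 ∈ bas k}
      have hS : MeasurableSet S := by
        refine measurableSet_setOfPred.2 (Measurable.forall fun m => Measurable.exists fun k =>
          Measurable.and ?_ ?_)
        · exact measurableSet_setOfPred.1 (measurable_fst (isOpen_D _).measurableSet)
        · exact measurableSet_setOfPred.1 (measurable_snd (isOpen_bas _).measurableSet)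
      have hmeas : Measurable fun x => l (Prod.mk x ⁻¹' S) := measurable_measure_prodMk_left hS
      let M : Set C := {x | l (Prod.mk x ⁻¹' S) = 0}
      have hM : MeasurableSet M := hmeas (measurableSet_singleton 0)
      have hsec : ∀ i w, (e j i, w) ∈ S ↔ ∀ m, ∃ k, z i (Nat.pair m k) = true ∧ w ∈ bas k := by
        intro i w
        simp only [S, mem_ofPred_eq, e, mem_D]
      have heM : ∀ i, e j i ∈ M := by
        intro i
        have : Prod.mk (e j i) ⁻¹' S = {w | ∀ m, ∃ k, z i (Nat.pair m k) = true ∧ w ∈ bas k} := by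
          ext w
          exact hsec i w
        simp only [M, mem_ofPred_eq, this, hz2]
      have h2 : (μ.restrict M).prod l S = 0 := by
        refine Measure.measure_prod_null_of_ae_null hS ?_
        filter_upwards [ae_restrict_mem hM] with x hx using hx
      rw [Measure.prod_apply_symm hS, lintegral_eq_zero_iff (measurable_measure_prodMk_right hS)]
        at h2
      obtain ⟨f, hfN, hf⟩ : ∃ f ∈ N, (μ.restrict M) ((fun x => (x, f)) ⁻¹' S) = 0 := by
        by_contra hcon
        push Not at hcon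
        exact hN (measure_mono_null hcon h2)
      obtain ⟨i0, rfl⟩ := hp f hfN
      rw [Measure.restrict_apply (measurable_prodMk_right hS)] at hf
      refine measure_mono_null (t := ((fun x => (x, p i0)) ⁻¹' S ∩ M) ∪ e j '' Iic i0) ?_
        (measure_union_null hf
          (hmin _ μ hμ hμ0 (lt_of_le_of_lt Cardinal.mk_image_le (hIic i0))))
      rintro _ ⟨i, rfl⟩
      by_cases hi : i ≤ i0
      · exact Or.inr ⟨i, hi, rfl⟩
      · exact Or.inl ⟨(hsec i _).2 (hz1 i i0 (not_le.1 hi)), heM i⟩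
    · rintro j j' hjj' _ ⟨i, rfl⟩ _ ⟨i', rfl⟩
      simp only [e, mem_Rel]
      refine ⟨(hHlt j j' hjj').mono fun n hn => hn.le, fun h => ?_⟩
      obtain ⟨n, h1, h2⟩ := (h.and (hHlt j j' hjj')).exists
      omega
  · obtain ⟨q, hq⟩ := exists_surjective_nat (Finset ℕ)
    have hmk : ∀ v, Measurable (Cantor.mk v) := fun v => (continuous_mk_right v).measurable
    let μ : Measure C := Measure.sum fun n => ((2 : ENNReal)⁻¹ ^ n) • l.map (Cantor.mk (fin (q n)))
    have hμ : ∀ s, MeasurableSet s →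
        μ s = ∑' n, (2 : ENNReal)⁻¹ ^ n * l (Cantor.mk (fin (q n)) ⁻¹' s) := by
      intro s hs
      simp only [μ, Measure.sum_apply _ hs, Measure.smul_apply, smul_eq_mul,
        Measure.map_apply (hmk _) hs]
    refine ⟨μ, ⟨?_⟩, fun x => ?_, fun F hF hE h0 => ?_⟩
    · rw [hμ _ MeasurableSet.univ]
      simp only [preimage_univ, ENNReal.tsum_mul_right, ENNReal.tsum_geometric]
      refine ENNReal.mul_lt_top ?_ (measure_lt_top _ _)
      simp
    · rw [hμ _ (measurableSet_singleton x), ENNReal.tsum_eq_zero]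
      intro n
      have : l (Cantor.mk (fin (q n)) ⁻¹' {x}) = 0 := by
        rcases (Set.subsingleton_singleton.preimage
          (mk_right_injective (fin (q n))) (s := {x})).eq_empty_or_singleton with h | ⟨y, h⟩
        · rw [h, measure_empty]
        · rw [h, hl0]
      rw [this, mul_zero]
    · rw [hμ _ (MeasurableSet.iUnion fun m => (hF m).measurableSet), ENNReal.tsum_eq_zero] at h0
      have hM : l (⋃ n, Cantor.mk (fin (q n)) ⁻¹' ⋃ m, F m) = 0 := by
        refine measure_iUnion_null fun n => ?_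
        have := h0 n
        rw [mul_eq_zero] at this
        exact this.resolve_left (by simp)
      obtain ⟨f, hfN, hfM⟩ : ∃ f ∈ N, f ∉ ⋃ n, Cantor.mk (fin (q n)) ⁻¹' ⋃ m, F m := by
        by_contra hcon
        push Not at hcon
        exact hN (measure_mono_null hcon hM)
      obtain ⟨h, hh⟩ := exists_bound (F := fun m => (fun v => Cantor.mk v f) ⁻¹' F m)
        (fun m => (hF m).preimage (continuous_mk_left f)) (by
          intro m s hs
          obtain ⟨n, rfl⟩ := hq s
          exact hfM (mem_iUnion.2 ⟨n, mem_iUnion.2 ⟨m, hs⟩⟩))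
      obtain ⟨j, hj⟩ := hHu h
      obtain ⟨i, rfl⟩ := hp f hfN
      refine hj (hh (H j) (z i) (hHm _) ?_)
      obtain ⟨m, hm⟩ := mem_iUnion.1 (hE (mem_iUnion.2 ⟨j, i, rfl⟩))
      exact mem_iUnion.2 ⟨m, hm⟩

end Pool.Agent.H362Z.UN
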