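import Mathlib
import Pool.Agent.H362Z.WNCCore

set_option autoImplicit false

open Set Filter Topology

namespace Pool.Agent.H362Z.WNC

lemma data_of_injection {K : Type} [TopologicalSpace K] [CompactSpace K] [T2Space K]
    (j : (ℕ → Bool) → K) (hj : Continuous j) (hinj : Function.Injective j) (k : ℕ) :
    Nonempty (Data C(K, ℂ) k) := by
  classical
  have hcl : ∀ (i : ℕ) (b : Bool), IsClosed (j '' {w | w i = b}) := fun i b =>
    ((isClosed_eq (continuous_apply i) continuous_const).isCompact.image hj).isClosed
  have hx : ∀ i : ℕ, ∃ x : C(K, ℝ), (∀ w, x (j w) = if w i = true then 1 else 0) ∧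
      ∀ t, 0 ≤ x t := by
    intro i
    obtain ⟨x, h0, h1, h2⟩ := exists_continuous_zero_one_of_isClosed (hcl i false) (hcl i true)
      (by
        rw [Set.disjoint_image_iff hinj, Set.disjoint_left]
        intro w h1 h2
        simp only [mem_ofPred_eq] at h1 h2
        rw [h1] at h2
        exact absurd h2 (by simp))
    refine ⟨x, fun w => ?_, fun t => (h2 t).1⟩
    cases hw : w i
    · simpa using h0 ⟨w, hw, rfl⟩
    · simpa using h1 ⟨w, hw, rfl⟩
  choose x hx1 hx2 using hx
  let c : ℕ → K → ℝ := fun n t => min (∑ i ∈ Finset.range n, x i t) k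
  have hc : ∀ n, Continuous (c n) := fun n =>
    (continuous_finsetSum _ fun i _ => (x i).continuous).min continuous_const
  refine ⟨{ T := K
            δ := fun t => ContinuousMap.evalCLM ℂ t
            δ_le := fun t f => f.norm_coe_le_norm t
            norming := fun f C hC h => (ContinuousMap.norm_le f hC).2 h
            c := c
            c_nonneg := fun n t => le_min (Finset.sum_nonneg fun i _ => hx2 i t) (Nat.cast_nonneg k)
            c_le := fun n t => min_le_right _ _
            c_mono := fun t a b hab => min_le_min_right _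
              (Finset.sum_le_sum_of_subset_of_nonneg (Finset.range_mono hab) fun i _ _ => hx2 i t)
            e := fun p q => ⟨fun t => ((min 1 (c q t - c p t) : ℝ) : ℂ),
              Complex.continuous_ofReal.comp (continuous_const.min ((hc q).sub (hc p)))⟩
            δ_e := fun p q t _ => rfl
            pts := fun b hb => ⟨j fun i => decide (i ∈ b), fun n => ?_⟩ }⟩
  simp only [c, hx1, decide_eq_true_eq, Finset.sum_boole]
  have h1 : (Finset.range n).filter (· ∈ b) = b.filter (· < n) := by
    ext i
    simp [and_comm]
  rw [h1, min_eq_left]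
  exact_mod_cast (Finset.card_filter_le _ _).trans hb

lemma exists_injection_Icc : ∃ j : (ℕ → Bool) → Icc (0 : ℝ) 1, Continuous j ∧
    Function.Injective j := by
  have hP : Perfect (Icc (0 : ℝ) 1) :=
    ⟨isClosed_Icc, isPreconnected_Icc.preperfect_of_nontrivial
      ⟨0, by simp, 1, by simp, zero_ne_one⟩⟩
  obtain ⟨f, h1, h2, h3⟩ := hP.exists_nat_bool_injection ⟨0, by simp⟩
  exact ⟨fun w => ⟨f w, h1 ⟨w, rfl⟩⟩, h2.subtype_mk _, fun a b h => h3 (congrArg Subtype.val h)⟩

end Pool.Agent.H362Z.WNC
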